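import Mathlib

/-!
Attaching a gadget to a graph at two ports.
-/

namespace Pool.Agent.Lib.MP_b7e22d_co

/-- The gadget vertices `0, 1` are the ports `x, y`, the gadget vertices `j + 2` are new. -/
def loc {V : Type} {m : ℕ} (x y : V) : Fin (m + 2) → V ⊕ Fin m :=
  Fin.cons (Sum.inl x) (Fin.cons (Sum.inl y) Sum.inr)

@[simp] theorem loc_zero {V : Type} {m : ℕ} (x y : V) : (loc x y : Fin (m+2) → _) 0 = Sum.inl x := rfl
@[simp] theorem loc_one {V : Type} {m : ℕ} (x y : V) : (loc x y : Fin (m+2) → _) 1 = Sum.inl y := rfl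
@[simp] theorem loc_succ {V : Type} {m : ℕ} (x y : V) (j : Fin m) :
    (loc x y : Fin (m+2) → _) j.succ.succ = Sum.inr j := rfl

/-- Case distinction on a gadget vertex. -/
theorem fin_cases2 {m : ℕ} (i : Fin (m + 2)) : i = 0 ∨ i = 1 ∨ ∃ j : Fin m, i = j.succ.succ := by
  refine Fin.cases ?_ (fun i => ?_) i
  · exact Or.inl rfl
  · refine Fin.cases ?_ (fun j => ?_) i
    · exact Or.inr (Or.inl rfl)
    · exact Or.inr (Or.inr ⟨j, rfl⟩)

theorem loc_injective {V : Type} {m : ℕ} {x y : V} (h : x ≠ y) :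
    Function.Injective (loc x y : Fin (m+2) → V ⊕ Fin m) := by
  intro i j hij
  rcases fin_cases2 i with rfl | rfl | ⟨a, rfl⟩ <;> rcases fin_cases2 j with rfl | rfl | ⟨b, rfl⟩ <;>
    simp_all

/-- Attach the gadget `E` to `G` at the ports `x, y`. -/
def attach {V : Type} {m : ℕ} (G : SimpleGraph V) (x y : V) (E : SimpleGraph (Fin (m + 2))) :
    SimpleGraph (V ⊕ Fin m) where
  Adj a b := a ≠ b ∧ ((∃ u v, G.Adj u v ∧ a = Sum.inl u ∧ b = Sum.inl v) ∨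
    ∃ i j, E.Adj i j ∧ a = loc x y i ∧ b = loc x y j)
  symm := ⟨by
    rintro a b ⟨hab, h⟩
    refine ⟨hab.symm, ?_⟩
    rcases h with ⟨u, v, huv, ha, hb⟩ | ⟨i, j, hij, ha, hb⟩
    · exact Or.inl ⟨v, u, huv.symm, hb, ha⟩
    · exact Or.inr ⟨j, i, hij.symm, hb, ha⟩⟩
  loopless := ⟨fun a h => h.1 rfl⟩

theorem attach_old {V : Type} {m : ℕ} {G : SimpleGraph V} {x y : V} {E : SimpleGraph (Fin (m + 2))}
    {u v : V} (h : G.Adj u v) : (attach G x y E).Adj (Sum.inl u) (Sum.inl v) :=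
  ⟨fun e => h.ne (Sum.inl.inj e), Or.inl ⟨u, v, h, rfl, rfl⟩⟩

theorem attach_loc {V : Type} {m : ℕ} {G : SimpleGraph V} {x y : V} {E : SimpleGraph (Fin (m + 2))}
    (hxy : x ≠ y) {i j : Fin (m + 2)} (h : E.Adj i j) :
    (attach G x y E).Adj (loc x y i) (loc x y j) :=
  ⟨fun e => h.ne (loc_injective hxy e), Or.inr ⟨i, j, h, rfl, rfl⟩⟩

/-- The graph on `Fin n` with the edges of a list. -/
def listGraph {n : ℕ} (l : List (Fin n × Fin n)) : SimpleGraph (Fin n) where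
  Adj i j := i ≠ j ∧ ((i, j) ∈ l ∨ (j, i) ∈ l)
  symm := ⟨fun _ _ h => ⟨h.1.symm, h.2.symm⟩⟩
  loopless := ⟨fun _ h => h.1 rfl⟩

instance {n : ℕ} (l : List (Fin n × Fin n)) : DecidableRel (listGraph l).Adj :=
  fun i j => inferInstanceAs (Decidable (i ≠ j ∧ ((i, j) ∈ l ∨ (j, i) ∈ l)))

/-- Two hub pieces: `s₁ = 2, t₁ = 3, x₁ = 4, s₂ = 5, t₂ = 6, x₂ = 7`. -/
def edgesD : List (Fin 8 × Fin 8) :=
  [(0,2),(0,3),(1,2),(1,3),(2,3),(1,4),(2,4),(3,4),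
   (4,5),(4,6),(1,5),(1,6),(5,6),(1,7),(5,7),(6,7)]

/-- One piece: `s = 2, t = 3, z = 4`. -/
def edgesA : List (Fin 5 × Fin 5) :=
  [(0,2),(0,3),(1,2),(1,3),(2,3),(1,4),(2,4),(3,4)]

/-- The marking gadget: `w = 2`, two octahedra `3, 4, 5` and `6, 7, 8` on the triangle `0, 1, 2`. -/
def edgesM : List (Fin 9 × Fin 9) :=
  [(0,2),(1,2),
   (0,3),(1,3),(1,4),(2,4),(0,5),(2,5),(3,4),(4,5),(3,5),
   (0,6),(1,6),(1,7),(2,7),(0,8),(2,8),(6,7),(7,8),(6,8)]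

end Pool.Agent.Lib.MP_b7e22d_co
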