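import Mathlib
import Pool.Agent.Lib.MP_b7e22d_co.Attach

/-!
The chain of blocks.
-/

namespace Pool.Agent.Lib.MP_b7e22d_co

/-- A finite graph with two adjacent distinguished vertices, the ports. -/
structure PG where
  /-- the vertices -/
  V : Type
  fin : Fintype V
  /-- the graph -/
  G : SimpleGraph V
  /-- the first port -/
  x : V
  /-- the second port -/
  y : V
  adj : G.Adj x y

attribute [instance] PG.fin

theorem PG.ne (P : PG) : P.x ≠ P.y := P.adj.ne

/-- Attach a gadget at the ports; the gadget vertices `i, j` become the new ports. -/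
def PG.att (P : PG) {m : ℕ} (l : List (Fin (m + 2) × Fin (m + 2))) (i j : Fin (m + 2))
    (h : (listGraph l).Adj i j) : PG where
  V := P.V ⊕ Fin m
  fin := inferInstance
  G := attach P.G P.x P.y (listGraph l)
  x := loc P.x P.y i
  y := loc P.x P.y j
  adj := attach_loc P.ne h

/-- Attach a gadget at the ports and keep the ports. -/
def PG.mark (P : PG) {m : ℕ} (l : List (Fin (m + 2) × Fin (m + 2))) : PG where
  V := P.V ⊕ Fin m
  fin := inferInstance
  G := attach P.G P.x P.y (listGraph l)
  x := Sum.inl P.x
  y := Sum.inl P.y
  adj := attach_old P.adj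

/-- Attach two hub pieces; the new ports are the hub `1` and the last vertex `7`. -/
def PG.stepD (P : PG) : PG := P.att edgesD 1 7 (by decide)

/-- Attach one piece; the new ports are its last vertex `4` and the old port `1`. -/
def PG.stepA (P : PG) : PG := P.att edgesA 4 1 (by decide)

/-- Attach the marking gadget. -/
def PG.stepM (P : PG) : PG := P.mark edgesM

/-- Attach one block. -/
def PG.block (P : PG) : PG := P.stepD.stepD.stepA.stepM

/-- The complete graph on two vertices. -/
def PG.base : PG where
  V := Fin 2
  fin := inferInstance
  G := ⊤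
  x := 0
  y := 1
  adj := by simp

/-- The chain of `n` blocks. -/
def PG.chain : ℕ → PG
  | 0 => PG.base
  | n + 1 => (PG.chain n).block

end Pool.Agent.Lib.MP_b7e22d_co
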