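import Mathlib

/-!
Definitions for the problem on planar graphs: 1-defective 3-correspondable versus 4-choosable.
-/

namespace Pool.Agent.Lib.MP_b7e22d_co

/-- A drawing of the graph `G` in the plane: the vertices are distinct points, every edge is a
simple arc joining its two end points, no arc passes through a further vertex, and two arcs of
distinct edges meet only in points that are vertices. -/
structure PlaneDrawing {V : Type*} (G : SimpleGraph V) where
  /-- the point representing a vertex -/
  pt : V → ℝ × ℝ
  /-- the arc representing an edge -/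
  arc : ∀ u v, G.Adj u v → Path (pt u) (pt v)
  pt_injective : Function.Injective pt
  arc_injective : ∀ u v (h : G.Adj u v), Function.Injective (arc u v h)
  arc_symm : ∀ u v (h : G.Adj u v), Set.range (arc v u h.symm) = Set.range (arc u v h)
  vertex_on_arc : ∀ u v (h : G.Adj u v) (w : V), pt w ∈ Set.range (arc u v h) → w = u ∨ w = v
  arcs_meet : ∀ u v (h : G.Adj u v) u' v' (h' : G.Adj u' v'), s(u, v) ≠ s(u', v') →
    ∀ z, z ∈ Set.range (arc u v h) → z ∈ Set.range (arc u' v' h') → ∃ w, z = pt w

/-- `G` is planar: it can be drawn in the plane without crossings. -/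
def IsPlanar {V : Type*} (G : SimpleGraph V) : Prop := Nonempty (PlaneDrawing G)

/-- `(L, H)` is a `k`-fold correspondence cover of `G`: the sets `L v` have `k` elements and
partition the vertex set `W` of `H`, for every edge `u v` of `G` the edges of `H` between `L u`
and `L v` form a matching, and `H` has no edges between `L u` and `L v` for distinct nonadjacent
`u, v`. -/
structure IsCover {V W : Type*} (G : SimpleGraph V) (k : ℕ) (L : V → Finset W)
    (H : SimpleGraph W) : Prop where
  card_eq : ∀ v, (L v).card = k
  partition : ∀ x : W, ∃! v, x ∈ L v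
  matching : ∀ u v, G.Adj u v → ∀ x ∈ L u, ∀ y ∈ L v, ∀ z ∈ L v, H.Adj x y → H.Adj x z → y = z
  no_edge : ∀ u v, u ≠ v → ¬ G.Adj u v → ∀ x ∈ L u, ∀ y ∈ L v, ¬ H.Adj x y

open scoped Classical in
/-- `I` is a `d`-defective `(L, H)`-colouring: it contains exactly one vertex of each `L v`, and
every vertex of `I` has at most `d` neighbours in `I`. -/
def IsDefectiveColouring {V W : Type*} (L : V → Finset W) (H : SimpleGraph W) (d : ℕ)
    (I : Finset W) : Prop :=
  (∀ v, ∃! x, x ∈ I ∧ x ∈ L v) ∧ ∀ x ∈ I, (I.filter fun y => H.Adj x y).card ≤ d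

/-- `G` is `d`-defective `k`-correspondable: every `k`-fold correspondence cover of `G` has a
`d`-defective colouring. -/
def IsDefectiveCorrespondable {V : Type*} (G : SimpleGraph V) (d k : ℕ) : Prop :=
  ∀ (W : Type) (L : V → Finset W) (H : SimpleGraph W), IsCover G k L H →
    ∃ I : Finset W, IsDefectiveColouring L H d I

/-- `G` is `k`-choosable: for all lists of `k` colours at the vertices there is a proper colouring
from the lists. -/
def IsChoosable {V : Type*} (G : SimpleGraph V) (k : ℕ) : Prop :=
  ∀ (C : Type) (L : V → Finset C), (∀ v, (L v).card = k) →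
    ∃ c : V → C, (∀ v, c v ∈ L v) ∧ ∀ u v, G.Adj u v → c u ≠ c v

end Pool.Agent.Lib.MP_b7e22d_co
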