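import Mathlib
import Pool.Agent.Lib.MP_b7e22d_co.Defs
import Pool.Agent.Lib.MP_b7e22d_co.Attach

/-!
Straight line drawings.
-/

namespace Pool.Agent.Lib.MP_b7e22d_co

/-- The points `pt` and the straight segments between them are a plane drawing of `G`. -/
structure SegDraw {V : Type} (G : SimpleGraph V) (pt : V → ℝ × ℝ) : Prop where
  inj : Function.Injective pt
  vert : ∀ u v, G.Adj u v → ∀ w, pt w ∈ segment ℝ (pt u) (pt v) → w = u ∨ w = v
  meet : ∀ u v, G.Adj u v → ∀ u' v', G.Adj u' v' → s(u, v) ≠ s(u', v') →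
    ∀ z ∈ segment ℝ (pt u) (pt v), z ∈ segment ℝ (pt u') (pt v') → ∃ w, z = pt w

/-- The drawing avoids the set `T`. -/
def Avoid {V : Type} (G : SimpleGraph V) (pt : V → ℝ × ℝ) (T : Set (ℝ × ℝ)) : Prop :=
  (∀ v, pt v ∉ T) ∧ ∀ u v, G.Adj u v → ∀ z ∈ segment ℝ (pt u) (pt v), z ∉ T

theorem elim_loc' {V : Type} {m : ℕ} {x y : V} {pt : V → ℝ × ℝ} {g : Fin (m + 2) → ℝ × ℝ}
    (h0 : g 0 = pt x) (h1 : g 1 = pt y) (i : Fin (m + 2)) :
    Sum.elim pt (fun j : Fin m => g j.succ.succ) (loc x y i) = g i := by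
  rcases fin_cases2 i with rfl | rfl | ⟨j, rfl⟩
  · simp [h0]
  · simp [h1]
  · simp

section attach

variable {V : Type} {m : ℕ} {G : SimpleGraph V} {x y : V} {E : SimpleGraph (Fin (m + 2))}
  {pt : V → ℝ × ℝ} {g : Fin (m + 2) → ℝ × ℝ} {T : Set (ℝ × ℝ)}

theorem segDraw_attach (hT : Avoid G pt T) (h0 : g 0 = pt x) (h1 : g 1 = pt y)
    (hnew : ∀ j : Fin m, g j.succ.succ ∈ T)
    (hseg : ∀ i j, E.Adj i j → ∀ z ∈ segment ℝ (g i) (g j), z ∈ T ∨ z = g 0 ∨ z = g 1)
    (hG : SegDraw G pt) (hE : SegDraw E g) :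
    SegDraw (attach G x y E) (Sum.elim pt fun j : Fin m => g j.succ.succ) := by
  -- an old vertex on a gadget edge is an end of this edge
  have key : ∀ i j, E.Adj i j → ∀ w, pt w ∈ segment ℝ (g i) (g j) →
      (Sum.inl w : V ⊕ Fin m) = loc x y i ∨ (Sum.inl w : V ⊕ Fin m) = loc x y j := by
    intro i j hij w hw
    rcases hseg i j hij _ hw with h | h | h
    · exact (hT.1 _ h).elim
    · rw [h0] at h
      obtain rfl := hG.inj h
      rw [← h0] at hw
      rcases hE.vert i j hij 0 hw with h | h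
      · exact Or.inl (by rw [← h]; rfl)
      · exact Or.inr (by rw [← h]; rfl)
    · rw [h1] at h
      obtain rfl := hG.inj h
      rw [← h1] at hw
      rcases hE.vert i j hij 1 hw with h | h
      · exact Or.inl (by rw [← h]; rfl)
      · exact Or.inr (by rw [← h]; rfl)
  -- a common point of an old edge and a gadget edge is a port
  have key2 : ∀ u v, G.Adj u v → ∀ i j, E.Adj i j → ∀ z ∈ segment ℝ (pt u) (pt v),
      z ∈ segment ℝ (g i) (g j) → ∃ w : V, z = pt w := by
    intro u v huv i j hij z hz hz'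
    rcases hseg i j hij _ hz' with h | h | h
    · exact (hT.2 u v huv z hz h).elim
    · exact ⟨x, h.trans h0⟩
    · exact ⟨y, h.trans h1⟩
  refine ⟨?_, ?_, ?_⟩
  · rintro (a | a) (b | b) hab
    · exact congrArg Sum.inl (hG.inj hab)
    · simp only [Sum.elim_inl, Sum.elim_inr] at hab
      exact (hT.1 a (hab ▸ hnew b)).elim
    · simp only [Sum.elim_inl, Sum.elim_inr] at hab
      exact (hT.1 b (hab ▸ hnew a)).elim
    · simp only [Sum.elim_inr] at hab
      have := hE.inj hab
      simpa using this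
  · rintro a b ⟨-, h⟩ w hw
    rcases h with ⟨u, v, huv, rfl, rfl⟩ | ⟨i, j, hij, rfl, rfl⟩
    · simp only [Sum.elim_inl] at hw
      rcases w with w | w
      · rcases hG.vert u v huv w hw with rfl | rfl <;> simp
      · exact (hT.2 u v huv _ hw (hnew w)).elim
    · rw [elim_loc' h0 h1, elim_loc' h0 h1] at hw
      rcases w with w | w
      · exact key i j hij w hw
      · rcases hE.vert i j hij w.succ.succ hw with h | h
        · exact Or.inl (by rw [← h]; rfl)
        · exact Or.inr (by rw [← h]; rfl)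
  · rintro a b ⟨-, h⟩ a' b' ⟨-, h'⟩ hne z hz hz'
    rcases h with ⟨u, v, huv, rfl, rfl⟩ | ⟨i, j, hij, rfl, rfl⟩ <;>
      rcases h' with ⟨u', v', huv', rfl, rfl⟩ | ⟨i', j', hij', rfl, rfl⟩
    · obtain ⟨w, hw⟩ := hG.meet u v huv u' v' huv' (fun e => hne (by
        have := congrArg (Sym2.map (Sum.inl : V → V ⊕ Fin m)) e
        simpa using this)) z hz hz'
      exact ⟨Sum.inl w, hw⟩
    · rw [elim_loc' h0 h1, elim_loc' h0 h1] at hz'
      obtain ⟨w, hw⟩ := key2 u v huv i' j' hij' z hz hz'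
      exact ⟨Sum.inl w, hw⟩
    · rw [elim_loc' h0 h1, elim_loc' h0 h1] at hz
      obtain ⟨w, hw⟩ := key2 u' v' huv' i j hij z hz' hz
      exact ⟨Sum.inl w, hw⟩
    · rw [elim_loc' h0 h1, elim_loc' h0 h1] at hz hz'
      obtain ⟨w, hw⟩ := hE.meet i j hij i' j' hij' (fun e => hne (by
        have := congrArg (Sym2.map (loc x y)) e
        simpa using this)) z hz hz'
      exact ⟨loc x y w, by rw [elim_loc' h0 h1]; exact hw⟩

theorem avoid_attach {T' : Set (ℝ × ℝ)} (hT : Avoid G pt T) (hsub : T' ⊆ T)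
    (h0 : g 0 = pt x) (h1 : g 1 = pt y) (hE : Avoid E g T') :
    Avoid (attach G x y E) (Sum.elim pt fun j : Fin m => g j.succ.succ) T' := by
  refine ⟨?_, ?_⟩
  · rintro (v | j)
    · exact fun h => hT.1 v (hsub h)
    · exact hE.1 j.succ.succ
  · rintro a b ⟨-, h⟩ z hz
    rcases h with ⟨u, v, huv, rfl, rfl⟩ | ⟨i, j, hij, rfl, rfl⟩
    · exact fun h => hT.2 u v huv z hz (hsub h)
    · rw [elim_loc' h0 h1, elim_loc' h0 h1] at hz
      exact hE.2 i j hij z hz

end attach

/-- The straight path between two points. -/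
noncomputable def segPath (p q : ℝ × ℝ) : Path p q where
  toFun t := AffineMap.lineMap p q (t : ℝ)
  continuous_toFun := by
    have : Continuous fun t : ℝ => (AffineMap.lineMap p q t : ℝ × ℝ) := AffineMap.lineMap_continuous
    exact this.comp continuous_subtype_val
  source' := by simp
  target' := by simp

theorem range_segPath (p q : ℝ × ℝ) : Set.range (segPath p q) = segment ℝ p q := by
  rw [segment_eq_image_lineMap]
  ext z
  constructor
  · rintro ⟨t, rfl⟩
    exact ⟨t, t.2, rfl⟩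
  · rintro ⟨t, ht, rfl⟩
    exact ⟨⟨t, ht⟩, rfl⟩

theorem isPlanar_of_segDraw {V : Type} {G : SimpleGraph V} {pt : V → ℝ × ℝ} (h : SegDraw G pt) :
    IsPlanar G :=
  ⟨{ pt := pt
     arc := fun u v _ => segPath (pt u) (pt v)
     pt_injective := h.inj
     arc_injective := by
      intro u v huv s t hst
      have hne : pt u ≠ pt v := fun e => huv.ne (h.inj e)
      have hst' : (AffineMap.lineMap (pt u) (pt v) (s : ℝ) : ℝ × ℝ) =
        AffineMap.lineMap (pt u) (pt v) (t : ℝ) := hst
      exact Subtype.ext (AffineMap.lineMap_injective ℝ hne hst')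
     arc_symm := by
      intro u v _
      rw [range_segPath, range_segPath, segment_symm]
     vertex_on_arc := by
      intro u v huv w hw
      rw [range_segPath] at hw
      exact h.vert u v huv w hw
     arcs_meet := by
      intro u v huv u' v' huv' hne z hz hz'
      rw [range_segPath] at hz hz'
      exact h.meet u v huv u' v' huv' hne z hz hz' }⟩

end Pool.Agent.Lib.MP_b7e22d_co
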