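import Mathlib

/-!
Signed areas, open triangles and segments in the plane.
-/

namespace Pool.Agent.Lib.MP_b7e22d_co

/-- Twice the signed area of a triangle. -/
def orient (a b c : ℝ × ℝ) : ℝ := (b.1 - a.1) * (c.2 - a.2) - (b.2 - a.2) * (c.1 - a.1)

/-- Twice the signed area of a triangle with integral corners. -/
def iorient (a b c : ℤ × ℤ) : ℤ := (b.1 - a.1) * (c.2 - a.2) - (b.2 - a.2) * (c.1 - a.1)

/-- The open triangle. -/
def tri (A B C : ℝ × ℝ) : Set (ℝ × ℝ) :=
  {z | 0 < orient A B C * orient A B z ∧ 0 < orient A B C * orient B C z ∧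
    0 < orient A B C * orient C A z}

/-- The closed triangle. -/
def ctri (A B C : ℝ × ℝ) : Set (ℝ × ℝ) :=
  {z | 0 ≤ orient A B C * orient A B z ∧ 0 ≤ orient A B C * orient B C z ∧
    0 ≤ orient A B C * orient C A z}

theorem orient_comb (A B p q : ℝ × ℝ) {a b : ℝ} (h : a + b = 1) :
    orient A B (a • p + b • q) = a * orient A B p + b * orient A B q := by
  obtain rfl : b = 1 - a := by linarith
  simp only [orient, Prod.fst_add, Prod.snd_add, Prod.smul_fst, Prod.smul_snd, smul_eq_mul]
  ring

@[simp] theorem orient_self_left (A c : ℝ × ℝ) : orient A A c = 0 := by simp [orient]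
@[simp] theorem orient_self_right (A B : ℝ × ℝ) : orient A B B = 0 := by
  simp only [orient]; ring
@[simp] theorem orient_self_mid (A B : ℝ × ℝ) : orient A B A = 0 := by
  simp only [orient]; ring

theorem orient_swap (A B c : ℝ × ℝ) : orient B A c = - orient A B c := by
  simp only [orient]; ring

theorem orient_rot (A B c : ℝ × ℝ) : orient B c A = orient A B c := by
  simp only [orient]; ring

/-- Cramer's rule for the signed area. -/
theorem orient_cramer (A B C U W z : ℝ × ℝ) :
    orient U W z * orient A B C = orient B C z * orient U W A + orient C A z * orient U W B +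
      orient A B z * orient U W C := by
  simp only [orient]; ring

theorem mem_seg_orient {A B z : ℝ × ℝ} (h : z ∈ segment ℝ A B) : orient A B z = 0 := by
  obtain ⟨a, b, _, _, hab, rfl⟩ := h
  rw [orient_comb _ _ _ _ hab]
  simp

/-- A segment from a point of the closed triangle to a point of the open triangle. -/
theorem seg_tri {A B C P Q z : ℝ × ℝ} (hP : P ∈ ctri A B C) (hQ : Q ∈ tri A B C)
    (hz : z ∈ segment ℝ P Q) : z ∈ tri A B C ∨ z = P := by
  obtain ⟨a, b, ha, hb, hab, rfl⟩ := hz
  rcases hb.eq_or_lt with rfl | hb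
  · right
    obtain rfl : a = 1 := by linarith
    simp
  · left
    obtain ⟨p1, p2, p3⟩ := hP
    obtain ⟨q1, q2, q3⟩ := hQ
    refine ⟨?_, ?_, ?_⟩ <;> rw [orient_comb _ _ _ _ hab]
    · have := mul_nonneg ha p1
      have := mul_pos hb q1
      nlinarith
    · have := mul_nonneg ha p2
      have := mul_pos hb q2
      nlinarith
    · have := mul_nonneg ha p3
      have := mul_pos hb q3
      nlinarith

theorem tri_ne {A B C z : ℝ × ℝ} (hz : z ∈ tri A B C) : orient A B C ≠ 0 := by
  intro h
  have := hz.1
  rw [h] at this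
  simp at this

theorem tri_subset {A B C X Y Z : ℝ × ℝ} (hA : A ∈ ctri X Y Z) (hB : B ∈ ctri X Y Z)
    (hC : C ∈ tri X Y Z) : tri A B C ⊆ tri X Y Z := by
  intro z hz
  have hD := tri_ne hz
  obtain ⟨z1, z2, z3⟩ := hz
  obtain ⟨a1, a2, a3⟩ := hA
  obtain ⟨b1, b2, b3⟩ := hB
  obtain ⟨c1, c2, c3⟩ := hC
  have hD2 : 0 < orient A B C * orient A B C := mul_self_pos.2 hD
  have key : ∀ U W : ℝ × ℝ, 0 ≤ orient X Y Z * orient U W A → 0 ≤ orient X Y Z * orient U W B →
      0 < orient X Y Z * orient U W C → 0 < orient X Y Z * orient U W z := by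
    intro U W hA hB hC
    have e : orient X Y Z * orient U W z * (orient A B C * orient A B C) =
        (orient A B C * orient B C z) * (orient X Y Z * orient U W A) +
        (orient A B C * orient C A z) * (orient X Y Z * orient U W B) +
        (orient A B C * orient A B z) * (orient X Y Z * orient U W C) := by
      have := orient_cramer A B C U W z
      linear_combination (orient X Y Z * orient A B C) * this
    have h1 := mul_nonneg z2.le hA
    have h2 := mul_nonneg z3.le hB
    have h3 := mul_pos z1 hC
    have : 0 < orient X Y Z * orient U W z * (orient A B C * orient A B C) := by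
      rw [e]; linarith
    exact (pos_iff_pos_of_mul_pos this).2 hD2
  exact ⟨key _ _ a1 b1 c1, key _ _ a2 b2 c2, key _ _ a3 b3 c3⟩

/-- Two segments from a common point in different directions. -/
theorem seg_meet_share {A B C z : ℝ × ℝ} (h : orient A B C ≠ 0) (h1 : z ∈ segment ℝ A B)
    (h2 : z ∈ segment ℝ A C) : z = A := by
  have h0 := mem_seg_orient h1
  obtain ⟨a, b, _, _, hab, rfl⟩ := h2
  rw [orient_comb _ _ _ _ hab] at h0
  simp only [orient_self_mid, mul_zero, zero_add, mul_eq_zero] at h0
  rcases h0 with rfl | h0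
  · obtain rfl : a = 1 := by linarith
    simp
  · exact (h h0).elim

/-- Two segments separated by the line through one of them. -/
theorem seg_meet_sep {A B C D z : ℝ × ℝ} (h : 0 < orient A B C * orient A B D)
    (h1 : z ∈ segment ℝ A B) (h2 : z ∈ segment ℝ C D) : False := by
  have h0 := mem_seg_orient h1
  obtain ⟨a, b, ha, hb, hab, rfl⟩ := h2
  rw [orient_comb _ _ _ _ hab] at h0
  have e1 : 0 = a * (orient A B C * orient A B C) + b * (orient A B C * orient A B D) := by
    linear_combination (- orient A B C) * h0
  have hC : orient A B C ≠ 0 := fun e => by simp [e] at h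
  have hC2 : 0 < orient A B C * orient A B C := mul_self_pos.2 hC
  have g1 := mul_nonneg ha hC2.le
  have g2 := mul_nonneg hb h.le
  rcases hb.eq_or_lt with rfl | hb
  · obtain rfl : a = 1 := by linarith
    linarith
  · have := mul_pos hb h
    linarith

/-- A segment and an open triangle separated by a side of the triangle. -/
theorem seg_tri_side {A B : ℝ × ℝ} {δ : ℝ} {P Q z : ℝ × ℝ} (hP : δ * orient A B P ≤ 0)
    (hQ : δ * orient A B Q ≤ 0) (hz : z ∈ segment ℝ P Q) : δ * orient A B z ≤ 0 := by
  obtain ⟨a, b, ha, hb, hab, rfl⟩ := hz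
  rw [orient_comb _ _ _ _ hab]
  have := mul_nonneg ha (neg_nonneg.2 hP)
  have := mul_nonneg hb (neg_nonneg.2 hQ)
  nlinarith

/-- An open triangle on one side of a line. -/
theorem tri_line {A B C U W z : ℝ × ℝ} {κ : ℝ} (hz : z ∈ tri A B C)
    (hA : 0 ≤ κ * orient U W A) (hB : 0 ≤ κ * orient U W B) (hC : 0 ≤ κ * orient U W C)
    (hs : 0 < κ * orient U W A + κ * orient U W B + κ * orient U W C)
    (hseg : z ∈ segment ℝ U W) : False := by
  have h0 := mem_seg_orient hseg
  obtain ⟨z1, z2, z3⟩ := hz
  have e := orient_cramer A B C U W z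
  rw [h0] at e
  have e' : 0 = (orient A B C * orient B C z) * (κ * orient U W A) +
        (orient A B C * orient C A z) * (κ * orient U W B) +
        (orient A B C * orient A B z) * (κ * orient U W C) := by
    linear_combination (κ * orient A B C) * e
  have h1 := mul_nonneg z2.le hA
  have h2 := mul_nonneg z3.le hB
  have h3 := mul_nonneg z1.le hC
  have g1 : (orient A B C * orient B C z) * (κ * orient U W A) = 0 := by linarith
  have g2 : (orient A B C * orient C A z) * (κ * orient U W B) = 0 := by linarith
  have g3 : (orient A B C * orient A B z) * (κ * orient U W C) = 0 := by linarith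
  have k1 := (mul_eq_zero.1 g1).resolve_left z2.ne'
  have k2 := (mul_eq_zero.1 g2).resolve_left z3.ne'
  have k3 := (mul_eq_zero.1 g3).resolve_left z1.ne'
  linarith

end Pool.Agent.Lib.MP_b7e22d_co
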