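import Mathlib
import Pool.Agent.Lib.MP_b7e22d_co.Plane
import Pool.Agent.Lib.MP_b7e22d_co.Drawing
import Pool.Agent.Lib.MP_b7e22d_co.Chain

/-!
Drawings of the gadgets in a triangle: the combinatorial conditions on integral coordinates.
-/

namespace Pool.Agent.Lib.MP_b7e22d_co

/-- The new vertices lie in the open triangle `(0,0), (N,0), (0,N)`. -/
def CIn (N : ℤ) {m : ℕ} (p : Fin (m + 2) → ℤ × ℤ) : Prop :=
  ∀ i : Fin m, 0 < (p i.succ.succ).1 ∧ 0 < (p i.succ.succ).2 ∧
    (p i.succ.succ).1 + (p i.succ.succ).2 < N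

instance (N : ℤ) {m : ℕ} (p : Fin (m + 2) → ℤ × ℤ) : Decidable (CIn N p) := by
  unfold CIn; infer_instance

/-- No vertex lies on the line through an edge not containing it. -/
def CGen {n : ℕ} (l : List (Fin n × Fin n)) (p : Fin n → ℤ × ℤ) : Prop :=
  ∀ e ∈ l, ∀ w, w ≠ e.1 → w ≠ e.2 → iorient (p e.1) (p e.2) (p w) ≠ 0

instance {n : ℕ} (l : List (Fin n × Fin n)) (p : Fin n → ℤ × ℤ) : Decidable (CGen l p) := by
  unfold CGen; infer_instance

/-- Disjoint edges are separated. -/
def CSep {n : ℕ} (l : List (Fin n × Fin n)) (p : Fin n → ℤ × ℤ) : Prop :=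
  ∀ e ∈ l, ∀ f ∈ l, e.1 ≠ f.1 → e.1 ≠ f.2 → e.2 ≠ f.1 → e.2 ≠ f.2 →
    0 < iorient (p e.1) (p e.2) (p f.1) * iorient (p e.1) (p e.2) (p f.2) ∨
    0 < iorient (p f.1) (p f.2) (p e.1) * iorient (p f.1) (p f.2) (p e.2)

instance {n : ℕ} (l : List (Fin n × Fin n)) (p : Fin n → ℤ × ℤ) : Decidable (CSep l p) := by
  unfold CSep; infer_instance

/-- Distinct vertices are distinct points. -/
def CInj {n : ℕ} (p : Fin n → ℤ × ℤ) : Prop := ∀ i j, i ≠ j → p i ≠ p j

instance {n : ℕ} (p : Fin n → ℤ × ℤ) : Decidable (CInj p) := by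
  unfold CInj; infer_instance

/-- The side `A, B` of the triangle `A, B, C` separates the triangle from `P, Q`. -/
def Side (A B C P Q : ℤ × ℤ) : Prop :=
  iorient A B C * iorient A B P ≤ 0 ∧ iorient A B C * iorient A B Q ≤ 0

instance (A B C P Q : ℤ × ℤ) : Decidable (Side A B C P Q) := by
  unfold Side; infer_instance

/-- The line `P, Q` has the triangle on its positive side. -/
def LineP (A B C P Q : ℤ × ℤ) : Prop :=
  (0 ≤ iorient P Q A ∧ 0 ≤ iorient P Q B ∧ 0 ≤ iorient P Q C) ∧
  0 < iorient P Q A + iorient P Q B + iorient P Q C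

instance (A B C P Q : ℤ × ℤ) : Decidable (LineP A B C P Q) := by
  unfold LineP; infer_instance

/-- The triangle `A, B, C` is separated from the segment `P, Q`. -/
def STri (A B C P Q : ℤ × ℤ) : Prop :=
  (Side A B C P Q ∨ Side B C A P Q ∨ Side C A B P Q) ∨ (LineP A B C P Q ∨ LineP A B C Q P)

instance (A B C P Q : ℤ × ℤ) : Decidable (STri A B C P Q) := by
  unfold STri; infer_instance

/-- The triangle `A, B, C` is separated from the edges. -/
def CTri {n : ℕ} (l : List (Fin n × Fin n)) (p : Fin n → ℤ × ℤ) (a b c : Fin n) : Prop :=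
  ∀ e ∈ l, STri (p a) (p b) (p c) (p e.1) (p e.2)

instance {n : ℕ} (l : List (Fin n × Fin n)) (p : Fin n → ℤ × ℤ) (a b c : Fin n) :
    Decidable (CTri l p a b c) := by
  unfold CTri; infer_instance

/-- The triangle `A, B, C` contains no vertex. -/
def CVert {n : ℕ} (p : Fin n → ℤ × ℤ) (a b c : Fin n) : Prop :=
  ∀ w, Side (p a) (p b) (p c) (p w) (p w) ∨ Side (p b) (p c) (p a) (p w) (p w) ∨
    Side (p c) (p a) (p b) (p w) (p w)

instance {n : ℕ} (p : Fin n → ℤ × ℤ) (a b c : Fin n) : Decidable (CVert p a b c) := by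
  unfold CVert; infer_instance

/-- The integral points `p` are a drawing of the gadget `l` in the triangle `(0,0), (N,0), (0,N)`,
and the triangle `a, b, c` is empty. -/
structure Chk (N : ℤ) {m : ℕ} (l : List (Fin (m + 2) × Fin (m + 2))) (p : Fin (m + 2) → ℤ × ℤ)
    (a b c : Fin (m + 2)) : Prop where
  pos : 0 < N
  p0 : p 0 = (0, 0)
  p1 : p 1 = (N, 0)
  cin : CIn N p
  gen : CGen l p
  sep : CSep l p
  inj : CInj p
  no : (0, 1) ∉ l ∧ (1, 0) ∉ l
  ne : iorient (p a) (p b) (p c) ≠ 0
  new : ∃ c' : Fin m, c = c'.succ.succ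
  ctri : CTri l p a b c
  cvert : CVert p a b c

/-- The drawing of the double hub piece. -/
def pD : Fin 8 → ℤ × ℤ := ![(0, 0), (9, 0), (2, 2), (1, 7), (2, 6), (3, 2), (3, 4), (4, 3)]

/-- The drawing of the single piece. -/
def pA : Fin 5 → ℤ × ℤ := ![(0, 0), (4, 0), (1, 2), (1, 1), (2, 1)]

/-- The drawing of the marking gadget. -/
def pM : Fin 9 → ℤ × ℤ :=
  ![(0, 0), (8, 0), (2, 4), (3, 1), (4, 1), (2, 2), (1, 6), (3, 4), (1, 5)]

theorem chkD : Chk 9 edgesD pD 1 7 5 where
  pos := by decide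
  p0 := rfl
  p1 := rfl
  cin := by decide +kernel
  gen := by decide +kernel
  sep := by decide +kernel
  inj := by decide +kernel
  no := by decide
  ne := by decide +kernel
  new := by decide
  ctri := by decide +kernel
  cvert := by decide +kernel

theorem chkA : Chk 4 edgesA pA 4 1 2 where
  pos := by decide
  p0 := rfl
  p1 := rfl
  cin := by decide +kernel
  gen := by decide +kernel
  sep := by decide +kernel
  inj := by decide +kernel
  no := by decide
  ne := by decide +kernel
  new := by decide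
  ctri := by decide +kernel
  cvert := by decide +kernel

theorem chkM : Chk 8 edgesM pM 0 1 3 where
  pos := by decide
  p0 := rfl
  p1 := rfl
  cin := by decide +kernel
  gen := by decide +kernel
  sep := by decide +kernel
  inj := by decide +kernel
  no := by decide
  ne := by decide +kernel
  new := by decide
  ctri := by decide +kernel
  cvert := by decide +kernel

end Pool.Agent.Lib.MP_b7e22d_co
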