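import Mathlib
import Pool.Agent.Lib.MP_b7e22d_co.Gadget

/-!
From the integral drawing of a gadget to a drawing in an arbitrary triangle.
-/

namespace Pool.Agent.Lib.MP_b7e22d_co

/-- The affine map from the triangle `(0,0), (N,0), (0,N)` to the triangle `X, Y, Z`. -/
noncomputable def frame (X Y Z : ℝ × ℝ) (N : ℤ) (q : ℤ × ℤ) : ℝ × ℝ :=
  (X.1 + (q.1 / N : ℝ) * (Y.1 - X.1) + (q.2 / N : ℝ) * (Z.1 - X.1),
   X.2 + (q.1 / N : ℝ) * (Y.2 - X.2) + (q.2 / N : ℝ) * (Z.2 - X.2))

section frame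

variable {X Y Z : ℝ × ℝ} {N : ℤ}

theorem orient_frame (hN : 0 < N) (q r s : ℤ × ℤ) :
    orient (frame X Y Z N q) (frame X Y Z N r) (frame X Y Z N s) =
      orient X Y Z / (N : ℝ) ^ 2 * (iorient q r s : ℝ) := by
  have hN' : (N : ℝ) ≠ 0 := by exact_mod_cast hN.ne'
  simp only [orient, frame, iorient]
  push_cast
  field_simp
  ring

theorem frame_zero : frame X Y Z N (0, 0) = X := by
  simp [frame]

theorem frame_one (hN : 0 < N) : frame X Y Z N (N, 0) = Y := by
  have hN' : (N : ℝ) ≠ 0 := by exact_mod_cast hN.ne'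
  simp [frame, hN']

theorem frame_mem (hN : 0 < N) (hD : orient X Y Z ≠ 0) {q : ℤ × ℤ} (h1 : 0 < q.1) (h2 : 0 < q.2)
    (h3 : q.1 + q.2 < N) : frame X Y Z N q ∈ tri X Y Z := by
  have hN' : (0 : ℝ) < N := by exact_mod_cast hN
  have h1' : (0 : ℝ) < q.1 := by exact_mod_cast h1
  have h2' : (0 : ℝ) < q.2 := by exact_mod_cast h2
  have h3' : (q.1 : ℝ) + q.2 < N := by exact_mod_cast h3
  have hD2 : 0 < orient X Y Z * orient X Y Z := mul_self_pos.2 hD
  have hN'' := hN'.ne'
  refine ⟨?_, ?_, ?_⟩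
  · have e : orient X Y Z * orient X Y (frame X Y Z N q) =
        (orient X Y Z * orient X Y Z) * (q.2 / N) := by
      simp only [orient, frame]; ring
    rw [e]; positivity
  · have e : orient X Y Z * orient Y Z (frame X Y Z N q) =
        (orient X Y Z * orient X Y Z) * ((N - q.1 - q.2) / N) := by
      simp only [orient, frame]
      field_simp
      ring
    rw [e]
    have : (0 : ℝ) < N - q.1 - q.2 := by linarith
    positivity
  · have e : orient X Y Z * orient Z X (frame X Y Z N q) =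
        (orient X Y Z * orient X Y Z) * (q.1 / N) := by
      simp only [orient, frame]; ring
    rw [e]; positivity

theorem frame_injective (hN : 0 < N) (hD : orient X Y Z ≠ 0) :
    Function.Injective (frame X Y Z N) := by
  intro q r h
  have hN' : (N : ℝ) ≠ 0 := by exact_mod_cast hN.ne'
  have e2 : ∀ s : ℤ × ℤ, orient X Y (frame X Y Z N s) = orient X Y Z / N * s.2 := by
    intro s
    simp only [orient, frame]; ring
  have e1 : ∀ s : ℤ × ℤ, orient Z X (frame X Y Z N s) = orient X Y Z / N * s.1 := by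
    intro s
    simp only [orient, frame]; ring
  have hf : orient X Y Z / N ≠ 0 := div_ne_zero hD hN'
  have k1 := e1 q
  rw [h, e1 r] at k1
  have k2 := e2 q
  rw [h, e2 r] at k2
  have k1' := mul_left_cancel₀ hf k1
  have k2' := mul_left_cancel₀ hf k2
  refine Prod.ext ?_ ?_
  · exact_mod_cast k1'.symm
  · exact_mod_cast k2'.symm

end frame

theorem tri_subset_ctri {A B C : ℝ × ℝ} : tri A B C ⊆ ctri A B C :=
  fun _ h => ⟨h.1.le, h.2.1.le, h.2.2.le⟩

theorem left_mem_ctri (X Y Z : ℝ × ℝ) : X ∈ ctri X Y Z := by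
  have e : orient Y Z X = orient X Y Z := orient_rot X Y Z
  refine ⟨by simp, ?_, by simp⟩
  rw [e]
  exact mul_self_nonneg (orient X Y Z)

theorem mid_mem_ctri (X Y Z : ℝ × ℝ) : Y ∈ ctri X Y Z := by
  have e : orient Z X Y = orient X Y Z := (orient_rot Y Z X).trans (orient_rot X Y Z)
  refine ⟨by simp, by simp, ?_⟩
  rw [e]
  exact mul_self_nonneg (orient X Y Z)

section real

variable {X Y Z : ℝ × ℝ} {N : ℤ}

/-- The factor between integral and real signed areas. -/
noncomputable def fac (X Y Z : ℝ × ℝ) (N : ℤ) : ℝ := orient X Y Z / (N : ℝ) ^ 2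

theorem fac_ne (hN : 0 < N) (hD : orient X Y Z ≠ 0) : fac X Y Z N ≠ 0 := by
  have hN' : (N : ℝ) ≠ 0 := by exact_mod_cast hN.ne'
  exact div_ne_zero hD (pow_ne_zero 2 hN')

theorem orient_frame' (hN : 0 < N) (q r s : ℤ × ℤ) :
    orient (frame X Y Z N q) (frame X Y Z N r) (frame X Y Z N s) =
      fac X Y Z N * (iorient q r s : ℝ) := orient_frame hN q r s

theorem orient_mul_pos (hN : 0 < N) (hD : orient X Y Z ≠ 0) {q r s q' r' s' : ℤ × ℤ}
    (h : 0 < iorient q r s * iorient q' r' s') :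
    0 < orient (frame X Y Z N q) (frame X Y Z N r) (frame X Y Z N s) *
      orient (frame X Y Z N q') (frame X Y Z N r') (frame X Y Z N s') := by
  rw [orient_frame' hN, orient_frame' hN]
  have h' : (0 : ℝ) < iorient q r s * iorient q' r' s' := by exact_mod_cast h
  have hf : 0 < fac X Y Z N * fac X Y Z N := mul_self_pos.2 (fac_ne hN hD)
  have e : fac X Y Z N * (iorient q r s : ℝ) * (fac X Y Z N * (iorient q' r' s' : ℝ)) =
    (fac X Y Z N * fac X Y Z N) * (iorient q r s * iorient q' r' s') := by ring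
  rw [e]
  exact mul_pos hf h'

theorem orient_mul_nonpos (hN : 0 < N) {q r s q' r' s' : ℤ × ℤ}
    (h : iorient q r s * iorient q' r' s' ≤ 0) :
    orient (frame X Y Z N q) (frame X Y Z N r) (frame X Y Z N s) *
      orient (frame X Y Z N q') (frame X Y Z N r') (frame X Y Z N s') ≤ 0 := by
  rw [orient_frame' hN, orient_frame' hN]
  have h' : (iorient q r s * iorient q' r' s' : ℝ) ≤ 0 := by exact_mod_cast h
  have hf : 0 ≤ fac X Y Z N * fac X Y Z N := mul_self_nonneg _
  have e : fac X Y Z N * (iorient q r s : ℝ) * (fac X Y Z N * (iorient q' r' s' : ℝ)) =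
    (fac X Y Z N * fac X Y Z N) * (iorient q r s * iorient q' r' s') := by ring
  rw [e]
  exact mul_nonpos_of_nonneg_of_nonpos hf h'

/-- A side of the triangle separates. -/
theorem side_avoid (hN : 0 < N) {A B C P Q : ℤ × ℤ} (h : Side A B C P Q) {z : ℝ × ℝ}
    (hz : z ∈ segment ℝ (frame X Y Z N P) (frame X Y Z N Q)) :
    z ∉ tri (frame X Y Z N A) (frame X Y Z N B) (frame X Y Z N C) := by
  intro hz'
  have := seg_tri_side (orient_mul_nonpos (X := X) (Y := Y) (Z := Z) hN h.1)
    (orient_mul_nonpos hN h.2) hz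
  exact (not_lt.2 this) hz'.1

/-- A line separates. -/
theorem line_avoid (hN : 0 < N) (hD : orient X Y Z ≠ 0) {A B C P Q : ℤ × ℤ}
    (h : LineP A B C P Q) {z : ℝ × ℝ}
    (hz : z ∈ segment ℝ (frame X Y Z N P) (frame X Y Z N Q)) :
    z ∉ tri (frame X Y Z N A) (frame X Y Z N B) (frame X Y Z N C) := by
  intro hz'
  have hf : 0 < fac X Y Z N * fac X Y Z N := mul_self_pos.2 (fac_ne hN hD)
  obtain ⟨⟨h1, h2, h3⟩, h4⟩ := h
  have h1' : (0 : ℝ) ≤ iorient P Q A := by exact_mod_cast h1
  have h2' : (0 : ℝ) ≤ iorient P Q B := by exact_mod_cast h2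
  have h3' : (0 : ℝ) ≤ iorient P Q C := by exact_mod_cast h3
  have h4' : (0 : ℝ) < iorient P Q A + iorient P Q B + iorient P Q C := by exact_mod_cast h4
  refine tri_line (κ := fac X Y Z N) hz' ?_ ?_ ?_ ?_ hz
  · rw [orient_frame' hN, ← mul_assoc]; exact mul_nonneg hf.le h1'
  · rw [orient_frame' hN, ← mul_assoc]; exact mul_nonneg hf.le h2'
  · rw [orient_frame' hN, ← mul_assoc]; exact mul_nonneg hf.le h3'
  · rw [orient_frame' hN, orient_frame' hN, orient_frame' hN, ← mul_assoc, ← mul_assoc,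
      ← mul_assoc, ← mul_add, ← mul_add]
    exact mul_pos hf h4'

theorem tri_rot (A B C : ℝ × ℝ) : tri B C A = tri A B C := by
  ext z
  have e : orient B C A = orient A B C := orient_rot A B C
  simp only [tri, Set.mem_ofPred_eq, e]
  tauto

theorem stri_avoid (hN : 0 < N) (hD : orient X Y Z ≠ 0) {A B C P Q : ℤ × ℤ}
    (h : STri A B C P Q) {z : ℝ × ℝ}
    (hz : z ∈ segment ℝ (frame X Y Z N P) (frame X Y Z N Q)) :
    z ∉ tri (frame X Y Z N A) (frame X Y Z N B) (frame X Y Z N C) := by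
  rcases h with (h | h | h) | (h | h)
  · exact side_avoid hN h hz
  · rw [← tri_rot]
    exact side_avoid hN h hz
  · rw [← tri_rot, ← tri_rot]
    exact side_avoid hN h hz
  · exact line_avoid hN hD h hz
  · rw [segment_symm] at hz
    exact line_avoid hN hD h hz

end real

/-- The gadget is drawn in the triangle `X, Y, Z`. -/
theorem chk_embed {N : ℤ} {m : ℕ} {l : List (Fin (m + 2) × Fin (m + 2))}
    {p : Fin (m + 2) → ℤ × ℤ} {a b c : Fin (m + 2)} (h : Chk N l p a b c) {X Y Z : ℝ × ℝ}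
    (hD : orient X Y Z ≠ 0) :
    ∃ g : Fin (m + 2) → ℝ × ℝ, g 0 = X ∧ g 1 = Y ∧ (∀ j : Fin m, g j.succ.succ ∈ tri X Y Z) ∧
      (∀ i j, (listGraph l).Adj i j → ∀ z ∈ segment ℝ (g i) (g j),
        z ∈ tri X Y Z ∨ z = g 0 ∨ z = g 1) ∧
      SegDraw (listGraph l) g ∧ orient (g a) (g b) (g c) ≠ 0 ∧
      tri (g a) (g b) (g c) ⊆ tri X Y Z ∧ Avoid (listGraph l) g (tri (g a) (g b) (g c)) := by
  have hN := h.pos
  let g : Fin (m + 2) → ℝ × ℝ := fun i => frame X Y Z N (p i)
  have g0 : g 0 = X := by simp only [g, h.p0]; exact frame_zero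
  have g1 : g 1 = Y := by simp only [g, h.p1]; exact frame_one hN
  have gnew : ∀ j : Fin m, g j.succ.succ ∈ tri X Y Z := fun j =>
    frame_mem hN hD (h.cin j).1 (h.cin j).2.1 (h.cin j).2.2
  have gall : ∀ i, g i ∈ ctri X Y Z := by
    intro i
    rcases fin_cases2 i with rfl | rfl | ⟨j, rfl⟩
    · rw [g0]; exact left_mem_ctri X Y Z
    · rw [g1]; exact mid_mem_ctri X Y Z
    · exact tri_subset_ctri (gnew j)
  have hne : ∀ q r s : ℤ × ℤ, iorient q r s ≠ 0 →
      orient (frame X Y Z N q) (frame X Y Z N r) (frame X Y Z N s) ≠ 0 := by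
    intro q r s hq
    rw [orient_frame' hN]
    exact mul_ne_zero (fac_ne hN hD) (by exact_mod_cast hq)
  have gen : ∀ i j, (listGraph l).Adj i j → ∀ w, w ≠ i → w ≠ j → orient (g i) (g j) (g w) ≠ 0 := by
    rintro i j ⟨-, hij | hij⟩ w hi hj
    · exact hne _ _ _ (h.gen _ hij w hi hj)
    · rw [orient_swap]
      exact neg_ne_zero.2 (hne _ _ _ (h.gen _ hij w hj hi))
  have sep0 : ∀ e ∈ l, ∀ f ∈ l, e.1 ≠ f.1 → e.1 ≠ f.2 → e.2 ≠ f.1 → e.2 ≠ f.2 →
      0 < orient (g e.1) (g e.2) (g f.1) * orient (g e.1) (g e.2) (g f.2) ∨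
      0 < orient (g f.1) (g f.2) (g e.1) * orient (g f.1) (g f.2) (g e.2) := by
    intro e he f hf h1 h2 h3 h4
    rcases h.sep e he f hf h1 h2 h3 h4 with h | h
    · exact Or.inl (orient_mul_pos hN hD h)
    · exact Or.inr (orient_mul_pos hN hD h)
  have sep : ∀ i j i' j', (listGraph l).Adj i j → (listGraph l).Adj i' j' →
      i ≠ i' → i ≠ j' → j ≠ i' → j ≠ j' → ∀ z ∈ segment ℝ (g i) (g j),
      z ∈ segment ℝ (g i') (g j') → False := by
    have base : ∀ e ∈ l, ∀ f ∈ l, e.1 ≠ f.1 → e.1 ≠ f.2 → e.2 ≠ f.1 → e.2 ≠ f.2 →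
        ∀ z ∈ segment ℝ (g e.1) (g e.2), z ∈ segment ℝ (g f.1) (g f.2) → False := by
      intro e he f hf h1 h2 h3 h4 z hz hz'
      rcases sep0 e he f hf h1 h2 h3 h4 with h | h
      · exact seg_meet_sep h hz hz'
      · exact seg_meet_sep h hz' hz
    rintro i j i' j' ⟨-, hij | hij⟩ ⟨-, hij' | hij'⟩ h1 h2 h3 h4 z hz hz'
    · exact base _ hij _ hij' h1 h2 h3 h4 z hz hz'
    · rw [segment_symm] at hz'
      exact base _ hij _ hij' h2 h1 h4 h3 z hz hz'
    · rw [segment_symm] at hz
      exact base _ hij _ hij' h3 h4 h1 h2 z hz hz'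
    · rw [segment_symm] at hz hz'
      exact base _ hij _ hij' h4 h3 h2 h1 z hz hz'
  have ginj : Function.Injective g := by
    intro i j hij
    by_contra hne'
    exact h.inj i j hne' (frame_injective hN hD hij)
  refine ⟨g, g0, g1, gnew, ?_, ⟨ginj, ?_, ?_⟩, hne _ _ _ h.ne, ?_, ?_, ?_⟩
  · intro i j hij z hz
    rcases fin_cases2 i with rfl | rfl | ⟨k, rfl⟩
    · rcases fin_cases2 j with rfl | rfl | ⟨k', rfl⟩
      · exact (hij.ne rfl).elim
      · rcases hij.2 with h' | h'
        · exact (h.no.1 h').elim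
        · exact (h.no.2 h').elim
      · rcases seg_tri (gall 0) (gnew k') hz with h | h
        · exact Or.inl h
        · exact Or.inr (Or.inl h)
    · rcases fin_cases2 j with rfl | rfl | ⟨k', rfl⟩
      · rcases hij.2 with h' | h'
        · exact (h.no.2 h').elim
        · exact (h.no.1 h').elim
      · exact (hij.ne rfl).elim
      · rcases seg_tri (gall 1) (gnew k') hz with h | h
        · exact Or.inl h
        · exact Or.inr (Or.inr h)
    · rw [segment_symm] at hz
      rcases fin_cases2 j with rfl | rfl | ⟨k', rfl⟩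
      · rcases seg_tri (gall 0) (gnew k) hz with h | h
        · exact Or.inl h
        · exact Or.inr (Or.inl h)
      · rcases seg_tri (gall 1) (gnew k) hz with h | h
        · exact Or.inl h
        · exact Or.inr (Or.inr h)
      · rcases seg_tri (tri_subset_ctri (gnew k')) (gnew k) hz with h | h
        · exact Or.inl h
        · exact Or.inl (h ▸ gnew k')
  · intro i j hij w hw
    by_contra hcon
    push Not at hcon
    exact gen i j hij w hcon.1 hcon.2 (mem_seg_orient hw)
  · intro i j hij i' j' hij' hne' z hz hz'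
    by_cases h1 : i = i'
    · subst h1
      have : j ≠ j' := fun e => hne' (by rw [e])
      exact ⟨i, seg_meet_share (gen i j hij j' hij'.ne' this.symm) hz hz'⟩
    by_cases h2 : i = j'
    · subst h2
      have : j ≠ i' := fun e => hne' (by rw [e, Sym2.eq_swap])
      rw [segment_symm] at hz'
      exact ⟨i, seg_meet_share (gen i j hij i' hij'.ne this.symm) hz hz'⟩
    by_cases h3 : j = i'
    · subst h3
      rw [segment_symm] at hz
      exact ⟨j, seg_meet_share (gen j i hij.symm j' hij'.ne' (Ne.symm h2)) hz hz'⟩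
    by_cases h4 : j = j'
    · subst h4
      rw [segment_symm] at hz hz'
      exact ⟨j, seg_meet_share (gen j i hij.symm i' hij'.ne (Ne.symm h1)) hz hz'⟩
    · exact (sep i j i' j' hij hij' h1 h2 h3 h4 z hz hz').elim
  · obtain ⟨c', hc'⟩ := h.new
    exact tri_subset (gall a) (gall b) (hc' ▸ gnew c')
  · intro w hw
    have hself : g w ∈ segment ℝ (g w) (g w) := left_mem_segment ℝ _ _
    rcases h.cvert w with h' | h' | h'
    · exact side_avoid hN h' hself hw
    · rw [← tri_rot] at hw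
      exact side_avoid hN h' hself hw
    · rw [← tri_rot, ← tri_rot] at hw
      exact side_avoid hN h' hself hw
  · rintro i j ⟨-, hij | hij⟩ z hz
    · exact stri_avoid hN hD (h.ctri _ hij) hz
    · rw [segment_symm] at hz
      exact stri_avoid hN hD (h.ctri _ hij) hz

end Pool.Agent.Lib.MP_b7e22d_co
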