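import Mathlib
import Pool.Agent.Lib.MP_b7e22d_co.Defs
import Pool.Agent.Lib.MP_b7e22d_co.Chain

/-!
The chain of twelve blocks is not 4-choosable.
-/

namespace Pool.Agent.Lib.MP_b7e22d_co

/-- There are lists of size 4 such that in every proper colouring from the lists the ports have
colours below 4 and their colours are not in the relation `K`. -/
def NC (P : PG) (K : Fin 6 → Fin 6 → Prop) : Prop :=
  ∃ L : P.V → Finset (Fin 6), (∀ v, (L v).card = 4) ∧ ∀ c : P.V → Fin 6, (∀ v, c v ∈ L v) →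
    (∀ u v, P.G.Adj u v → c u ≠ c v) →
    (c P.x).val < 4 ∧ (c P.y).val < 4 ∧ ¬ K (c P.x) (c P.y)

section attach

variable {P : PG} {K K' : Fin 6 → Fin 6 → Prop} {m : ℕ} {l : List (Fin (m + 2) × Fin (m + 2))}

/-- Extension of lists to a gadget. -/
theorem nc_ext (ll : Fin m → Finset (Fin 6)) (hcard : ∀ j, (ll j).card = 4) (h : NC P K)
    (s t : P.V ⊕ Fin m)
    (hloc : ∀ ψ : Fin (m + 2) → Fin 6, (∀ j : Fin m, ψ j.succ.succ ∈ ll j) →
      (∀ i j, (listGraph l).Adj i j → ψ i ≠ ψ j) → (ψ 0).val < 4 → (ψ 1).val < 4 → ψ 0 ≠ ψ 1 →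
      ¬ K (ψ 0) (ψ 1) → ∀ c : P.V ⊕ Fin m → Fin 6, (∀ i, c (loc P.x P.y i) = ψ i) →
      (c s).val < 4 ∧ (c t).val < 4 ∧ ¬ K' (c s) (c t)) :
    ∃ L : P.V ⊕ Fin m → Finset (Fin 6), (∀ v, (L v).card = 4) ∧
      ∀ c : P.V ⊕ Fin m → Fin 6, (∀ v, c v ∈ L v) →
      (∀ u v, (attach P.G P.x P.y (listGraph l)).Adj u v → c u ≠ c v) →
      (c s).val < 4 ∧ (c t).val < 4 ∧ ¬ K' (c s) (c t) := by
  obtain ⟨L, hL, hc⟩ := h
  refine ⟨Sum.elim L ll, ?_, fun c hcL hcp => ?_⟩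
  · rintro (v | j)
    · exact hL v
    · exact hcard j
  · obtain ⟨hx, hy, hK⟩ := hc (fun v => c (Sum.inl v)) (fun v => hcL (Sum.inl v))
      (fun u v huv => hcp _ _ (attach_old huv))
    exact hloc (fun i => c (loc P.x P.y i)) (fun j => hcL (Sum.inr j))
      (fun i j hij => hcp _ _ (attach_loc P.ne hij)) hx hy
      (hcp _ _ (attach_old P.adj)) hK c (fun i => rfl)

theorem nc_att {i j : Fin (m + 2)} {hij : (listGraph l).Adj i j}
    (ll : Fin m → Finset (Fin 6)) (hcard : ∀ j, (ll j).card = 4) (h : NC P K)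
    (hloc : ∀ ψ : Fin (m + 2) → Fin 6, (∀ j : Fin m, ψ j.succ.succ ∈ ll j) →
      (∀ i j, (listGraph l).Adj i j → ψ i ≠ ψ j) → (ψ 0).val < 4 → (ψ 1).val < 4 → ψ 0 ≠ ψ 1 →
      ¬ K (ψ 0) (ψ 1) → (ψ i).val < 4 ∧ (ψ j).val < 4 ∧ ¬ K' (ψ i) (ψ j)) :
    NC (P.att l i j hij) K' :=
  nc_ext ll hcard h (loc P.x P.y i) (loc P.x P.y j) fun ψ h1 h2 h3 h4 h5 h6 c hc => by
    rw [hc, hc]
    exact hloc ψ h1 h2 h3 h4 h5 h6

theorem nc_mark (ll : Fin m → Finset (Fin 6)) (hcard : ∀ j, (ll j).card = 4) (h : NC P K)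
    (hloc : ∀ ψ : Fin (m + 2) → Fin 6, (∀ j : Fin m, ψ j.succ.succ ∈ ll j) →
      (∀ i j, (listGraph l).Adj i j → ψ i ≠ ψ j) → (ψ 0).val < 4 → (ψ 1).val < 4 → ψ 0 ≠ ψ 1 →
      ¬ K (ψ 0) (ψ 1) → ¬ K' (ψ 0) (ψ 1)) :
    NC (P.mark l) K' :=
  nc_ext ll hcard h (Sum.inl P.x) (Sum.inl P.y) fun ψ h1 h2 h3 h4 h5 h6 c hc => by
    have e0 : c (Sum.inl P.x) = ψ 0 := hc 0
    have e1 : c (Sum.inl P.y) = ψ 1 := hc 1
    rw [e0, e1]
    exact ⟨h3, h4, hloc ψ h1 h2 h3 h4 h5 h6⟩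

end attach

/-- The standard list. -/
def B : Finset (Fin 6) := {0, 1, 2, 3}

theorem mem_B : ∀ z ∈ B, z.val < 4 := by decide

theorem card_B : B.card = 4 := by decide

/-- Two adjacent vertices and two common neighbours determine the last vertex of a piece. -/
theorem piece {X Y S T Z : Fin 6} (hX : X.val < 4) (hY : Y.val < 4) (hS : S.val < 4)
    (hT : T.val < 4) (hZ : Z.val < 4) (h1 : X ≠ Y) (h2 : X ≠ S) (h3 : X ≠ T) (h4 : Y ≠ S)
    (h5 : Y ≠ T) (h6 : S ≠ T) (h7 : Y ≠ Z) (h8 : S ≠ Z) (h9 : T ≠ Z) : Z = X := by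
  simp only [ne_eq, Fin.ext_iff] at *
  omega

theorem nc_stepD {P : PG} {K : Fin 6 → Fin 6 → Prop} (h : NC P K) :
    NC P.stepD fun u v => K v u := by
  refine nc_att (fun _ => B) (fun _ => card_B) h ?_
  intro ψ hB hp h0 h1 h01 hK
  have b2 : (ψ 2).val < 4 := mem_B _ (hB 0)
  have b3 : (ψ 3).val < 4 := mem_B _ (hB 1)
  have b4 : (ψ 4).val < 4 := mem_B _ (hB 2)
  have b5 : (ψ 5).val < 4 := mem_B _ (hB 3)
  have b6 : (ψ 6).val < 4 := mem_B _ (hB 4)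
  have b7 : (ψ 7).val < 4 := mem_B _ (hB 5)
  have e4 : ψ 4 = ψ 0 := piece h0 h1 b2 b3 b4 h01 (hp 0 2 (by decide)) (hp 0 3 (by decide))
    (hp 1 2 (by decide)) (hp 1 3 (by decide)) (hp 2 3 (by decide)) (hp 1 4 (by decide))
    (hp 2 4 (by decide)) (hp 3 4 (by decide))
  have e7 : ψ 7 = ψ 4 := piece b4 h1 b5 b6 b7 (hp 4 1 (by decide)) (hp 4 5 (by decide))
    (hp 4 6 (by decide)) (hp 1 5 (by decide)) (hp 1 6 (by decide)) (hp 5 6 (by decide))
    (hp 1 7 (by decide)) (hp 5 7 (by decide)) (hp 6 7 (by decide))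
  refine ⟨h1, b7, ?_⟩
  rw [e7, e4]
  exact hK

theorem nc_stepA {P : PG} {K : Fin 6 → Fin 6 → Prop} (h : NC P K) : NC P.stepA K := by
  refine nc_att (fun _ => B) (fun _ => card_B) h ?_
  intro ψ hB hp h0 h1 h01 hK
  have b2 : (ψ 2).val < 4 := mem_B _ (hB 0)
  have b3 : (ψ 3).val < 4 := mem_B _ (hB 1)
  have b4 : (ψ 4).val < 4 := mem_B _ (hB 2)
  have e4 : ψ 4 = ψ 0 := piece h0 h1 b2 b3 b4 h01 (hp 0 2 (by decide)) (hp 0 3 (by decide))
    (hp 1 2 (by decide)) (hp 1 3 (by decide)) (hp 2 3 (by decide)) (hp 1 4 (by decide))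
    (hp 2 4 (by decide)) (hp 3 4 (by decide))
  refine ⟨b4, h1, ?_⟩
  rw [e4]
  exact hK

/-- `a, b, c, d` are the four colours below 4. -/
def Quad (q : Fin 6 × Fin 6 × Fin 6 × Fin 6) : Prop :=
  (∀ z : Fin 6, z.val < 4 → z = q.1 ∨ z = q.2.1 ∨ z = q.2.2.1 ∨ z = q.2.2.2) ∧
  q.1 ≠ q.2.1 ∧ q.1 ≠ q.2.2.1 ∧ q.1 ≠ q.2.2.2 ∧ q.2.1 ≠ q.2.2.1 ∧ q.2.1 ≠ q.2.2.2 ∧
  q.1.val < 4 ∧ q.2.1.val < 4 ∧ q.2.2.1.val < 4 ∧ q.2.2.2.val < 4

instance (q : Fin 6 × Fin 6 × Fin 6 × Fin 6) : Decidable (Quad q) :=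
  inferInstanceAs (Decidable (_ ∧ _))

theorem card_list : ∀ a b : Fin 6, a ≠ b → a.val < 4 → b.val < 4 →
    ({a, b, 4, 5} : Finset (Fin 6)).card = 4 := by decide

theorem oct_no {a b c p q r : Fin 6} (hp : p ∈ ({a, b, 4, 5} : Finset (Fin 6)))
    (hq : q ∈ ({b, c, 4, 5} : Finset (Fin 6))) (hr : r ∈ ({a, c, 4, 5} : Finset (Fin 6)))
    (h1 : a ≠ p) (h2 : b ≠ p) (h3 : b ≠ q) (h4 : c ≠ q) (h5 : a ≠ r) (h6 : c ≠ r)
    (h7 : p ≠ q) (h8 : q ≠ r) (h9 : p ≠ r) : False := by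
  simp only [Finset.mem_insert, Finset.mem_singleton] at hp hq hr
  have hp' : p = 4 ∨ p = 5 := by
    rcases hp with h | h | h | h
    · exact (h1 h.symm).elim
    · exact (h2 h.symm).elim
    · exact Or.inl h
    · exact Or.inr h
  have hq' : q = 4 ∨ q = 5 := by
    rcases hq with h | h | h | h
    · exact (h3 h.symm).elim
    · exact (h4 h.symm).elim
    · exact Or.inl h
    · exact Or.inr h
  have hr' : r = 4 ∨ r = 5 := by
    rcases hr with h | h | h | h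
    · exact (h5 h.symm).elim
    · exact (h6 h.symm).elim
    · exact Or.inl h
    · exact Or.inr h
  rcases hp' with rfl | rfl <;> rcases hq' with rfl | rfl <;> rcases hr' with rfl | rfl <;>
    simp_all

theorem nc_stepM {P : PG} {K : Fin 6 → Fin 6 → Prop} (h : NC P K)
    (q : Fin 6 × Fin 6 × Fin 6 × Fin 6) (hq : Quad q) :
    NC P.stepM fun u v => (u = q.1 ∧ v = q.2.1) ∨ K u v := by
  obtain ⟨a, b, c, d⟩ := q
  obtain ⟨hall, hab, hac, had, hbc, hbd, ha, hb, hc, hd⟩ := hq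
  simp only at hall hab hac had hbc hbd ha hb hc hd
  refine nc_mark ![B, {a, b, 4, 5}, {b, c, 4, 5}, {a, c, 4, 5}, {a, b, 4, 5}, {b, d, 4, 5},
    {a, d, 4, 5}] ?_ h ?_
  · intro j
    fin_cases j
    · exact card_B
    · exact card_list _ _ hab ha hb
    · exact card_list _ _ hbc hb hc
    · exact card_list _ _ hac ha hc
    · exact card_list _ _ hab ha hb
    · exact card_list _ _ hbd hb hd
    · exact card_list _ _ had ha hd
  · rintro ψ hB hp h0 h1 h01 hK (⟨e0, e1⟩ | hK')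
    · have b2 : (ψ 2).val < 4 := mem_B _ (hB 0)
      have n0 := hp 0 2 (by decide)
      have n1 := hp 1 2 (by decide)
      simp only at e0 e1
      rcases hall _ b2 with e2 | e2 | e2 | e2
      · exact n0 (e0.trans e2.symm)
      · exact n1 (e1.trans e2.symm)
      · refine oct_no (a := a) (b := b) (c := c) (hB 1) (hB 2) (hB 3) ?_ ?_ ?_ ?_ ?_ ?_
          (hp 3 4 (by decide)) (hp 4 5 (by decide)) (hp 3 5 (by decide))
        · rw [← e0]; exact hp 0 3 (by decide)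
        · rw [← e1]; exact hp 1 3 (by decide)
        · rw [← e1]; exact hp 1 4 (by decide)
        · rw [← e2]; exact hp 2 4 (by decide)
        · rw [← e0]; exact hp 0 5 (by decide)
        · rw [← e2]; exact hp 2 5 (by decide)
      · refine oct_no (a := a) (b := b) (c := d) (hB 4) (hB 5) (hB 6) ?_ ?_ ?_ ?_ ?_ ?_
          (hp 6 7 (by decide)) (hp 7 8 (by decide)) (hp 6 8 (by decide))
        · rw [← e0]; exact hp 0 6 (by decide)
        · rw [← e1]; exact hp 1 6 (by decide)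
        · rw [← e1]; exact hp 1 7 (by decide)
        · rw [← e2]; exact hp 2 7 (by decide)
        · rw [← e0]; exact hp 0 8 (by decide)
        · rw [← e2]; exact hp 2 8 (by decide)
    · exact hK hK'

theorem nc_base : NC PG.base fun _ _ => False :=
  ⟨fun _ => B, fun _ => card_B, fun _ hc _ => ⟨mem_B _ (hc _), mem_B _ (hc _), id⟩⟩

theorem nc_chain (Q : List (Fin 6 × Fin 6 × Fin 6 × Fin 6)) (hQ : ∀ q ∈ Q, Quad q) :
    NC (PG.chain Q.length) fun u v => ∃ q ∈ Q, u = q.1 ∧ v = q.2.1 := by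
  induction Q with
  | nil =>
    have := nc_base
    simpa [PG.chain] using this
  | cons q Q ih =>
    have h := nc_stepM (nc_stepA (nc_stepD (nc_stepD (ih fun q' hq' => hQ q' (by simp [hq']))))) q
      (hQ q (by simp))
    have e : (fun u v => ∃ q' ∈ q :: Q, u = q'.1 ∧ v = q'.2.1) =
        fun u v => (u = q.1 ∧ v = q.2.1) ∨ ∃ q' ∈ Q, u = q'.1 ∧ v = q'.2.1 := by
      funext u v
      simp
    rw [e]
    exact h

/-- The twelve ordered pairs of colours below 4, with the two other colours. -/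
def quads : List (Fin 6 × Fin 6 × Fin 6 × Fin 6) :=
  [(0, 1, 2, 3), (0, 2, 1, 3), (0, 3, 1, 2), (1, 0, 2, 3), (1, 2, 0, 3), (1, 3, 0, 2),
   (2, 0, 1, 3), (2, 1, 0, 3), (2, 3, 0, 1), (3, 0, 1, 2), (3, 1, 0, 2), (3, 2, 0, 1)]

set_option maxRecDepth 10000 in
theorem quads_quad : ∀ q ∈ quads, Quad q := by decide

set_option maxRecDepth 10000 in
theorem quads_all : ∀ u v : Fin 6, u.val < 4 → v.val < 4 → u ≠ v →
    ∃ q ∈ quads, u = q.1 ∧ v = q.2.1 := by decide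

theorem chain_not_choosable : ¬ IsChoosable (PG.chain 12).G 4 := by
  intro h
  obtain ⟨L, hL, hc⟩ := nc_chain quads quads_quad
  change (v : (PG.chain 12).V) → (L v).card = 4 at hL
  obtain ⟨c, hcL, hcp⟩ := h (Fin 6) L hL
  obtain ⟨h1, h2, h3⟩ := hc c hcL hcp
  exact h3 (quads_all _ _ h1 h2 (hcp _ _ (PG.chain 12).adj))

end Pool.Agent.Lib.MP_b7e22d_co
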