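import Mathlib
import Pool.Agent.Lib.MP_b7e22d_co.Attach

/-!
Colourings of permutation covers with defect 1: gluing and local criteria.
-/

namespace Pool.Agent.Lib.MP_b7e22d_co

open Equiv

/-- The adjacent vertices `u, v` are in conflict under the colouring `φ`. -/
def Conf {V : Type} (G : SimpleGraph V) (σ : V → V → Perm (Fin 3)) (φ : V → Fin 3) (u v : V) :
    Prop := G.Adj u v ∧ σ u v (φ u) = φ v

/-- Every vertex is in conflict with at most one vertex. -/
def Good {V : Type} (G : SimpleGraph V) (σ : V → V → Perm (Fin 3)) (φ : V → Fin 3) : Prop :=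
  ∀ u v w, Conf G σ φ u v → Conf G σ φ u w → v = w

/-- The vertex `u` is in no conflict. -/
def Free {V : Type} (G : SimpleGraph V) (σ : V → V → Perm (Fin 3)) (φ : V → Fin 3) (u : V) :
    Prop := ∀ v, ¬ Conf G σ φ u v

/-- The permutations of the two directions of an edge are inverse to each other. -/
def SymmCov {V : Type} (σ : V → V → Perm (Fin 3)) : Prop := ∀ u v, u ≠ v → σ v u = (σ u v)⁻¹

theorem symmCov_comp {V W : Type} {σ : W → W → Perm (Fin 3)} (h : SymmCov σ) {f : V → W}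
    (hf : Function.Injective f) : SymmCov (fun u v => σ (f u) (f v)) :=
  fun _ _ huv => h _ _ fun e => huv (hf e)

section glue

variable {V : Type} {m : ℕ} {G : SimpleGraph V} {x y : V} {E : SimpleGraph (Fin (m + 2))}
  {σ : (V ⊕ Fin m) → (V ⊕ Fin m) → Perm (Fin 3)} {φ : V → Fin 3} {ψ : Fin (m + 2) → Fin 3}

theorem elim_loc (h0 : ψ 0 = φ x) (h1 : ψ 1 = φ y) (i : Fin (m + 2)) :
    Sum.elim φ (fun j : Fin m => ψ j.succ.succ) (loc x y i) = ψ i := by
  rcases fin_cases2 i with rfl | rfl | ⟨j, rfl⟩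
  · simp [h0]
  · simp [h1]
  · simp

theorem conf_cases (h0 : ψ 0 = φ x) (h1 : ψ 1 = φ y) {a b : V ⊕ Fin m}
    (h : Conf (attach G x y E) σ (Sum.elim φ fun j : Fin m => ψ j.succ.succ) a b) :
    (∃ u v, a = Sum.inl u ∧ b = Sum.inl v ∧ Conf G (fun u v => σ (Sum.inl u) (Sum.inl v)) φ u v) ∨
    ∃ i j, a = loc x y i ∧ b = loc x y j ∧
      Conf E (fun i j => σ (loc x y i) (loc x y j)) ψ i j := by
  obtain ⟨⟨-, h⟩, hc⟩ := h
  rcases h with ⟨u, v, huv, rfl, rfl⟩ | ⟨i, j, hij, rfl, rfl⟩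
  · exact Or.inl ⟨u, v, rfl, rfl, huv, hc⟩
  · rw [elim_loc h0 h1, elim_loc h0 h1] at hc
    exact Or.inr ⟨i, j, rfl, rfl, hij, hc⟩

theorem glue_good (hxy : x ≠ y) (h0 : ψ 0 = φ x) (h1 : ψ 1 = φ y)
    (hφ : Good G (fun u v => σ (Sum.inl u) (Sum.inl v)) φ)
    (hψ : Good E (fun i j => σ (loc x y i) (loc x y j)) ψ)
    (hx : Free G (fun u v => σ (Sum.inl u) (Sum.inl v)) φ x ∨
      Free E (fun i j => σ (loc x y i) (loc x y j)) ψ 0)
    (hy : Free G (fun u v => σ (Sum.inl u) (Sum.inl v)) φ y ∨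
      Free E (fun i j => σ (loc x y i) (loc x y j)) ψ 1) :
    Good (attach G x y E) σ (Sum.elim φ fun j : Fin m => ψ j.succ.succ) := by
  -- an old conflict and a gadget conflict at the same vertex cannot both occur
  have key : ∀ u v i j, Sum.inl u = (loc x y i : V ⊕ Fin m) →
      Conf G (fun u v => σ (Sum.inl u) (Sum.inl v)) φ u v →
      Conf E (fun i j => σ (loc x y i) (loc x y j)) ψ i j → False := by
    intro u v i j hu hc hc'
    rcases fin_cases2 i with rfl | rfl | ⟨k, rfl⟩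
    · obtain rfl : u = x := by simpa using hu
      rcases hx with h | h
      · exact h _ hc
      · exact h _ hc'
    · obtain rfl : u = y := by simpa using hu
      rcases hy with h | h
      · exact h _ hc
      · exact h _ hc'
    · simp at hu
  intro a b c hab hac
  rcases conf_cases h0 h1 hab with ⟨u, v, rfl, rfl, h⟩ | ⟨i, j, rfl, rfl, h⟩ <;>
    rcases conf_cases h0 h1 hac with ⟨u', v', ha, rfl, h'⟩ | ⟨i', j', ha, rfl, h'⟩
  · obtain rfl := Sum.inl.inj ha
    rw [hφ _ _ _ h h']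
  · exact (key _ _ _ _ ha h h').elim
  · exact (key _ _ _ _ ha.symm h' h).elim
  · obtain rfl := loc_injective hxy ha
    rw [hψ _ _ _ h h']

theorem glue_free_new (hxy : x ≠ y) (h0 : ψ 0 = φ x) (h1 : ψ 1 = φ y) {k : Fin m}
    (h : Free E (fun i j => σ (loc x y i) (loc x y j)) ψ k.succ.succ) :
    Free (attach G x y E) σ (Sum.elim φ fun j : Fin m => ψ j.succ.succ) (Sum.inr k) := by
  intro b hb
  rcases conf_cases h0 h1 hb with ⟨u, v, ha, -, -⟩ | ⟨i, j, ha, -, hc⟩
  · cases ha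
  · have : i = k.succ.succ := loc_injective hxy (by rw [← ha, loc_succ])
    subst this
    exact h _ hc

theorem glue_free_y (hxy : x ≠ y) (h0 : ψ 0 = φ x) (h1 : ψ 1 = φ y)
    (h : Free G (fun u v => σ (Sum.inl u) (Sum.inl v)) φ y)
    (h' : Free E (fun i j => σ (loc x y i) (loc x y j)) ψ 1) :
    Free (attach G x y E) σ (Sum.elim φ fun j : Fin m => ψ j.succ.succ) (Sum.inl y) := by
  intro b hb
  rcases conf_cases h0 h1 hb with ⟨u, v, ha, -, hc⟩ | ⟨i, j, ha, -, hc⟩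
  · obtain rfl := Sum.inl.inj ha
    exact h _ hc
  · have : i = 1 := loc_injective hxy (by rw [← ha, loc_one])
    subst this
    exact h' _ hc

end glue

section local_criteria

variable {n : ℕ} {l M : List (Fin n × Fin n)} {σ : Fin n → Fin n → Perm (Fin 3)}
  {ψ : Fin n → Fin 3}

theorem conf_mem (hσ : SymmCov σ) (h : ∀ e ∈ l, e ∈ M ∨ σ e.1 e.2 (ψ e.1) ≠ ψ e.2) {i j : Fin n}
    (hc : Conf (listGraph l) σ ψ i j) : (i, j) ∈ M ∨ (j, i) ∈ M := by
  obtain ⟨⟨hij, hl⟩, hc⟩ := hc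
  rcases hl with hl | hl
  · rcases h _ hl with h' | h'
    · exact Or.inl h'
    · exact (h' hc).elim
  · rcases h _ hl with h' | h'
    · exact Or.inr h'
    · refine (h' ?_).elim
      simp only
      rw [hσ i j hij, ← hc]
      simp

/-- If only the edges of the matching `M` can be in conflict, the colouring is good. -/
theorem good_of_list (hσ : SymmCov σ)
    (hM : ∀ i j k, ((i, j) ∈ M ∨ (j, i) ∈ M) → ((i, k) ∈ M ∨ (k, i) ∈ M) → j = k)
    (h : ∀ e ∈ l, e ∈ M ∨ σ e.1 e.2 (ψ e.1) ≠ ψ e.2) : Good (listGraph l) σ ψ :=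
  fun _ _ _ h1 h2 => hM _ _ _ (conf_mem hσ h h1) (conf_mem hσ h h2)

theorem free_of_list (hσ : SymmCov σ) (h : ∀ e ∈ l, e ∈ M ∨ σ e.1 e.2 (ψ e.1) ≠ ψ e.2)
    {i : Fin n} (hi : ∀ j, ¬ ((i, j) ∈ M ∨ (j, i) ∈ M)) : Free (listGraph l) σ ψ i :=
  fun j hj => hi j (conf_mem hσ h hj)

end local_criteria

end Pool.Agent.Lib.MP_b7e22d_co
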