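import Mathlib
import Pool.Agent.Lib.MP_b7e22d_co.Glue

/-!
The two hub pieces: every colour of the new port that is not in conflict with the hub can be
reached, with at most one conflict at the hub and none at the new port.
-/

namespace Pool.Agent.Lib.MP_b7e22d_co

open Equiv

/-- The three elements are pairwise distinct. -/
def Rb (p q r : Fin 3) : Prop := p ≠ q ∧ q ≠ r ∧ p ≠ r

instance (p q r : Fin 3) : Decidable (Rb p q r) := inferInstanceAs (Decidable (_ ∧ _))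

theorem exists_avoid : ∀ p q r : Fin 3, ¬ Rb p q r → ∃ s, s ≠ p ∧ s ≠ q ∧ s ≠ r := by decide

theorem rb_third : ∀ p q r : Fin 3, Rb p q r → r = -(p + q) := by decide

/-- Colouring an adjacent pair `s, t` with pole hits `p₁ p₂ p₃` at `s` and `r₁ r₂ r₃` at `t` when
`t` is not rainbow: there is a choice without pole conflicts, or one whose only conflict is
at the second or the third pole of `s`. -/
theorem fill (p₁ p₂ p₃ r₁ r₂ r₃ : Fin 3) (C : Perm (Fin 3)) (hr : ¬ Rb r₁ r₂ r₃) :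
    (∃ s t, (s ≠ p₁ ∧ s ≠ p₂ ∧ s ≠ p₃) ∧ (t ≠ r₁ ∧ t ≠ r₂ ∧ t ≠ r₃)) ∨
    (∃ s t, (s ≠ p₁ ∧ s ≠ p₃ ∧ C s ≠ t) ∧ (t ≠ r₁ ∧ t ≠ r₂ ∧ t ≠ r₃)) ∨
    (∃ s t, (s ≠ p₁ ∧ s ≠ p₂ ∧ C s ≠ t) ∧ (t ≠ r₁ ∧ t ≠ r₂ ∧ t ≠ r₃)) := by
  obtain ⟨t, ht⟩ := exists_avoid _ _ _ hr
  by_cases hp : Rb p₁ p₂ p₃
  · by_cases hC : C p₂ = t
    · refine Or.inr (Or.inr ⟨p₃, t, ⟨hp.2.2.symm, hp.2.1.symm, fun h => ?_⟩, ht⟩)
      exact hp.2.1 (C.injective (hC.trans h.symm))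
    · exact Or.inr (Or.inl ⟨p₂, t, ⟨hp.1.symm, hp.2.1, hC⟩, ht⟩)
  · obtain ⟨s, hs⟩ := exists_avoid _ _ _ hp
    exact Or.inl ⟨s, t, hs, ht⟩

/-- The conditions on the colour `u` of the middle vertex. -/
def PickP (r1 r2 r3 r4 z u : Fin 3) : Prop :=
    (u ≠ r1 ∧ u ≠ r2 ∧ u ≠ r3 ∧ u ≠ r4) ∨
    (u ≠ z ∧ u ≠ r3 ∧ u ≠ r4 ∧ u ≠ r1) ∨ (u ≠ z ∧ u ≠ r3 ∧ u ≠ r4 ∧ u ≠ r2) ∨
    (u ≠ z ∧ u ≠ r1 ∧ u ≠ r2 ∧ u ≠ r3) ∨ (u ≠ z ∧ u ≠ r1 ∧ u ≠ r2 ∧ u ≠ r4)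

instance (r1 r2 r3 r4 z u : Fin 3) : Decidable (PickP r1 r2 r3 r4 z u) := by
  unfold PickP; infer_instance

theorem pick : ∀ r1 r2 r3 r4 z : Fin 3, ∃ u : Fin 3, PickP r1 r2 r3 r4 z u := by decide

theorem mkD {σ : Fin 8 → Fin 8 → Perm (Fin 3)} (hσ : SymmCov σ) {a b c s t u s' t' : Fin 3}
    (M : List (Fin 8 × Fin 8))
    (hM : ∀ i j k, ((i, j) ∈ M ∨ (j, i) ∈ M) → ((i, k) ∈ M ∨ (k, i) ∈ M) → j = k)
    (hM0 : ∀ j, ¬ (((0 : Fin 8), j) ∈ M ∨ (j, (0 : Fin 8)) ∈ M))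
    (hM7 : ∀ j, ¬ (((7 : Fin 8), j) ∈ M ∨ (j, (7 : Fin 8)) ∈ M))
    (h : ∀ e ∈ edgesD, e ∈ M ∨ σ e.1 e.2 (![a,b,s,t,u,s',t',c] e.1) ≠ ![a,b,s,t,u,s',t',c] e.2) :
    ∃ ψ : Fin 8 → Fin 3, ψ 0 = a ∧ ψ 1 = b ∧ ψ 7 = c ∧ Good (listGraph edgesD) σ ψ ∧
      Free (listGraph edgesD) σ ψ 0 ∧ Free (listGraph edgesD) σ ψ 7 :=
  ⟨![a,b,s,t,u,s',t',c], rfl, rfl, rfl, good_of_list hσ hM h, free_of_list hσ h hM0,
    free_of_list hσ h hM7⟩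

theorem ne_inv {C : Perm (Fin 3)} {s u : Fin 3} (h : s ≠ C⁻¹ u) : C s ≠ u := by
  intro e; exact h (by rw [← e]; simp)

theorem localD (σ : Fin 8 → Fin 8 → Perm (Fin 3)) (hσ : SymmCov σ) (a b c : Fin 3)
    (hbc : σ 1 7 b ≠ c) :
    ∃ ψ : Fin 8 → Fin 3, ψ 0 = a ∧ ψ 1 = b ∧ ψ 7 = c ∧ Good (listGraph edgesD) σ ψ ∧
      Free (listGraph edgesD) σ ψ 0 ∧ Free (listGraph edgesD) σ ψ 7 := by
  obtain ⟨u, hu⟩ := pick (σ 2 4 (-(σ 0 2 a + σ 1 2 b))) (σ 3 4 (-(σ 0 3 a + σ 1 3 b)))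
    ((σ 4 5)⁻¹ (-((σ 5 7)⁻¹ c + σ 1 5 b))) ((σ 4 6)⁻¹ (-((σ 6 7)⁻¹ c + σ 1 6 b))) (σ 1 4 b)
  have n1 : u ≠ σ 2 4 (-(σ 0 2 a + σ 1 2 b)) → ¬ Rb (σ 0 2 a) (σ 1 2 b) ((σ 2 4)⁻¹ u) := by
    intro h hr
    have := rb_third _ _ _ hr
    exact h (by rw [← this]; simp)
  have n2 : u ≠ σ 3 4 (-(σ 0 3 a + σ 1 3 b)) → ¬ Rb (σ 0 3 a) (σ 1 3 b) ((σ 3 4)⁻¹ u) := by
    intro h hr
    have := rb_third _ _ _ hr
    exact h (by rw [← this]; simp)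
  have n3 : u ≠ (σ 4 5)⁻¹ (-((σ 5 7)⁻¹ c + σ 1 5 b)) →
      ¬ Rb ((σ 5 7)⁻¹ c) (σ 1 5 b) (σ 4 5 u) := by
    intro h hr
    have := rb_third _ _ _ hr
    exact h (by rw [← this]; simp)
  have n4 : u ≠ (σ 4 6)⁻¹ (-((σ 6 7)⁻¹ c + σ 1 6 b)) →
      ¬ Rb ((σ 6 7)⁻¹ c) (σ 1 6 b) (σ 4 6 u) := by
    intro h hr
    have := rb_third _ _ _ hr
    exact h (by rw [← this]; simp)
  have free1 : ¬ Rb (σ 0 2 a) (σ 1 2 b) ((σ 2 4)⁻¹ u) → ¬ Rb (σ 0 3 a) (σ 1 3 b) ((σ 3 4)⁻¹ u) →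
      ∃ s t, (s ≠ σ 0 2 a ∧ s ≠ σ 1 2 b ∧ σ 2 4 s ≠ u) ∧
        (t ≠ σ 0 3 a ∧ t ≠ σ 1 3 b ∧ σ 3 4 t ≠ u) := by
    intro h h'
    obtain ⟨s, h1, h2, h3⟩ := exists_avoid _ _ _ h
    obtain ⟨t, h4, h5, h6⟩ := exists_avoid _ _ _ h'
    exact ⟨s, t, ⟨h1, h2, ne_inv h3⟩, h4, h5, ne_inv h6⟩
  have free2 : ¬ Rb ((σ 5 7)⁻¹ c) (σ 1 5 b) (σ 4 5 u) → ¬ Rb ((σ 6 7)⁻¹ c) (σ 1 6 b) (σ 4 6 u) →
      ∃ s t, (σ 5 7 s ≠ c ∧ s ≠ σ 1 5 b ∧ s ≠ σ 4 5 u) ∧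
        (σ 6 7 t ≠ c ∧ t ≠ σ 1 6 b ∧ t ≠ σ 4 6 u) := by
    intro h h'
    obtain ⟨s, h1, h2, h3⟩ := exists_avoid _ _ _ h
    obtain ⟨t, h4, h5, h6⟩ := exists_avoid _ _ _ h'
    exact ⟨s, t, ⟨ne_inv h1, h2, h3⟩, ne_inv h4, h5, h6⟩
  rcases hu with ⟨h1, h2, h3, h4⟩ | ⟨hz, h3, h4, h1⟩ | ⟨hz, h3, h4, h2⟩ | ⟨hz, h1, h2, h3⟩ |
      ⟨hz, h1, h2, h4⟩
  · obtain ⟨s, t, ⟨f1, f2, f3⟩, f4, f5, f6⟩ := free1 (n1 h1) (n2 h2)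
    obtain ⟨s', t', ⟨g1, g2, g3⟩, g4, g5, g6⟩ := free2 (n3 h3) (n4 h4)
    refine mkD hσ (s := s) (t := t) (u := u) (s' := s') (t' := t') [(2,3),(5,6),(1,4)]
      (by decide) (by decide) (by decide) ?_
    simp [edgesD, f1.symm, f2.symm, f3, f4.symm, f5.symm, f6, g1, g2.symm, g3.symm, g4, g5.symm,
      g6.symm, hbc]
  · -- `t` may be rainbow
    obtain ⟨s', t', ⟨g1, g2, g3⟩, g4, g5, g6⟩ := free2 (n3 h3) (n4 h4)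
    rcases fill (σ 0 3 a) (σ 1 3 b) ((σ 3 4)⁻¹ u) (σ 0 2 a) (σ 1 2 b) ((σ 2 4)⁻¹ u) (σ 2 3)⁻¹
      (n1 h1) with ⟨t, s, ⟨f4, f5, f6⟩, f1, f2, f3⟩ | ⟨t, s, ⟨f4, f5, f6⟩, f1, f2, f3⟩ |
      ⟨t, s, ⟨f4, f5, f6⟩, f1, f2, f3⟩
    · refine mkD hσ (s := s) (t := t) (u := u) (s' := s') (t' := t') [(2,3),(5,6),(1,4)]
        (by decide) (by decide) (by decide) ?_
      simp [edgesD, f1.symm, f2.symm, ne_inv f3, f4.symm, f5.symm, ne_inv f6, g1, g2.symm, g3.symm,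
        g4, g5.symm, g6.symm, hbc]
    · refine mkD hσ (s := s) (t := t) (u := u) (s' := s') (t' := t') [(1,3),(5,6)]
        (by decide) (by decide) (by decide) ?_
      have f6' : σ 2 3 s ≠ t := fun e => f6 (by rw [← e]; simp)
      simp [edgesD, f1.symm, f2.symm, ne_inv f3, f4.symm, ne_inv f5, f6', g1, g2.symm, g3.symm,
        g4, g5.symm, g6.symm, hbc, hz.symm]
    · refine mkD hσ (s := s) (t := t) (u := u) (s' := s') (t' := t') [(3,4),(5,6)]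
        (by decide) (by decide) (by decide) ?_
      have f6' : σ 2 3 s ≠ t := fun e => f6 (by rw [← e]; simp)
      simp [edgesD, f1.symm, f2.symm, ne_inv f3, f4.symm, f5.symm, f6', g1, g2.symm, g3.symm,
        g4, g5.symm, g6.symm, hbc, hz.symm]
  · -- `s` may be rainbow
    obtain ⟨s', t', ⟨g1, g2, g3⟩, g4, g5, g6⟩ := free2 (n3 h3) (n4 h4)
    rcases fill (σ 0 2 a) (σ 1 2 b) ((σ 2 4)⁻¹ u) (σ 0 3 a) (σ 1 3 b) ((σ 3 4)⁻¹ u) (σ 2 3)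
      (n2 h2) with ⟨s, t, ⟨f1, f2, f3⟩, f4, f5, f6⟩ | ⟨s, t, ⟨f1, f2, f3⟩, f4, f5, f6⟩ |
      ⟨s, t, ⟨f1, f2, f3⟩, f4, f5, f6⟩
    · refine mkD hσ (s := s) (t := t) (u := u) (s' := s') (t' := t') [(2,3),(5,6),(1,4)]
        (by decide) (by decide) (by decide) ?_
      simp [edgesD, f1.symm, f2.symm, ne_inv f3, f4.symm, f5.symm, ne_inv f6, g1, g2.symm, g3.symm,
        g4, g5.symm, g6.symm, hbc]
    · refine mkD hσ (s := s) (t := t) (u := u) (s' := s') (t' := t') [(1,2),(5,6)]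
        (by decide) (by decide) (by decide) ?_
      simp [edgesD, f1.symm, ne_inv f2, f3, f4.symm, f5.symm, ne_inv f6, g1, g2.symm, g3.symm,
        g4, g5.symm, g6.symm, hbc, hz.symm]
    · refine mkD hσ (s := s) (t := t) (u := u) (s' := s') (t' := t') [(2,4),(5,6)]
        (by decide) (by decide) (by decide) ?_
      simp [edgesD, f1.symm, f2.symm, f3, f4.symm, f5.symm, ne_inv f6, g1, g2.symm, g3.symm,
        g4, g5.symm, g6.symm, hbc, hz.symm]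
  · -- `t'` may be rainbow
    obtain ⟨s, t, ⟨f1, f2, f3⟩, f4, f5, f6⟩ := free1 (n1 h1) (n2 h2)
    rcases fill ((σ 6 7)⁻¹ c) (σ 1 6 b) (σ 4 6 u) ((σ 5 7)⁻¹ c) (σ 1 5 b) (σ 4 5 u) (σ 5 6)⁻¹
      (n3 h3) with ⟨t', s', ⟨g4, g5, g6⟩, g1, g2, g3⟩ | ⟨t', s', ⟨g4, g5, g6⟩, g1, g2, g3⟩ |
      ⟨t', s', ⟨g4, g5, g6⟩, g1, g2, g3⟩
    · refine mkD hσ (s := s) (t := t) (u := u) (s' := s') (t' := t') [(2,3),(5,6),(1,4)]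
        (by decide) (by decide) (by decide) ?_
      simp [edgesD, f1.symm, f2.symm, f3, f4.symm, f5.symm, f6, ne_inv g1, g2.symm, g3.symm,
        ne_inv g4, g5.symm, g6.symm, hbc]
    · refine mkD hσ (s := s) (t := t) (u := u) (s' := s') (t' := t') [(1,6),(2,3)]
        (by decide) (by decide) (by decide) ?_
      have g6' : σ 5 6 s' ≠ t' := fun e => g6 (by rw [← e]; simp)
      simp [edgesD, f1.symm, f2.symm, f3, f4.symm, f5.symm, f6, ne_inv g1, g2.symm, g3.symm,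
        ne_inv g4, g5.symm, g6', hbc, hz.symm]
    · refine mkD hσ (s := s) (t := t) (u := u) (s' := s') (t' := t') [(4,6),(2,3)]
        (by decide) (by decide) (by decide) ?_
      have g6' : σ 5 6 s' ≠ t' := fun e => g6 (by rw [← e]; simp)
      simp [edgesD, f1.symm, f2.symm, f3, f4.symm, f5.symm, f6, ne_inv g1, g2.symm, g3.symm,
        ne_inv g4, g5.symm, g6', hbc, hz.symm]
  · -- `s'` may be rainbow
    obtain ⟨s, t, ⟨f1, f2, f3⟩, f4, f5, f6⟩ := free1 (n1 h1) (n2 h2)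
    rcases fill ((σ 5 7)⁻¹ c) (σ 1 5 b) (σ 4 5 u) ((σ 6 7)⁻¹ c) (σ 1 6 b) (σ 4 6 u) (σ 5 6)
      (n4 h4) with ⟨s', t', ⟨g1, g2, g3⟩, g4, g5, g6⟩ | ⟨s', t', ⟨g1, g2, g3⟩, g4, g5, g6⟩ |
      ⟨s', t', ⟨g1, g2, g3⟩, g4, g5, g6⟩
    · refine mkD hσ (s := s) (t := t) (u := u) (s' := s') (t' := t') [(2,3),(5,6),(1,4)]
        (by decide) (by decide) (by decide) ?_
      simp [edgesD, f1.symm, f2.symm, f3, f4.symm, f5.symm, f6, ne_inv g1, g2.symm, g3.symm,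
        ne_inv g4, g5.symm, g6.symm, hbc]
    · refine mkD hσ (s := s) (t := t) (u := u) (s' := s') (t' := t') [(1,5),(2,3)]
        (by decide) (by decide) (by decide) ?_
      simp [edgesD, f1.symm, f2.symm, f3, f4.symm, f5.symm, f6, ne_inv g1, g2.symm, g3,
        ne_inv g4, g5.symm, g6.symm, hbc, hz.symm]
    · refine mkD hσ (s := s) (t := t) (u := u) (s' := s') (t' := t') [(4,5),(2,3)]
        (by decide) (by decide) (by decide) ?_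
      simp [edgesD, f1.symm, f2.symm, f3, f4.symm, f5.symm, f6, ne_inv g1, g2.symm, g3,
        ne_inv g4, g5.symm, g6.symm, hbc, hz.symm]

end Pool.Agent.Lib.MP_b7e22d_co
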