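import Mathlib
import Pool.Agent.Lib.MP_b7e22d_co.LocalD

/-!
The single piece: a colouring without conflicts at the three poles exists.
-/

namespace Pool.Agent.Lib.MP_b7e22d_co

open Equiv

theorem exists_avoid2 : ∀ p q : Fin 3, ∃ s, s ≠ p ∧ s ≠ q := by decide

theorem exists_two : ∀ κ : Fin 3, ∃ c₁ c₂ : Fin 3, c₁ ≠ κ ∧ c₂ ≠ κ ∧ c₁ ≠ c₂ := by decide

theorem rb_of_ne : ∀ p q : Fin 3, p ≠ q → Rb p q (-(p + q)) := by decide

/-- The free triple lemma. -/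
theorem free_triple (α β γ α' β' γ' cf ν : Perm (Fin 3)) (κ : Fin 3) :
    ∃ c d e, c ≠ κ ∧ cf c ≠ d ∧ ν d ≠ e ∧ ¬ Rb (α c) (β d) (γ e) ∧ ¬ Rb (α' c) (β' d) (γ' e) := by
  -- if `d` has the same hit as `c` at one of the two vertices, only two colours are forbidden
  have one : ∀ (α β γ α' β' γ' : Perm (Fin 3)) (c : Fin 3), c ≠ κ → β⁻¹ (α c) ≠ cf c →
      ∃ c d e, c ≠ κ ∧ cf c ≠ d ∧ ν d ≠ e ∧ ¬ Rb (α c) (β d) (γ e) ∧
        ¬ Rb (α' c) (β' d) (γ' e) := by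
    intro α β γ α' β' γ' c hc h
    obtain ⟨e, he1, he2⟩ := exists_avoid2 (ν (β⁻¹ (α c)))
      (γ'⁻¹ (-(α' c + β' (β⁻¹ (α c)))))
    refine ⟨c, β⁻¹ (α c), e, hc, h.symm, he1.symm, ?_, ?_⟩
    · intro hr
      exact hr.1 (by simp)
    · intro hr
      have := rb_third _ _ _ hr
      exact he2 (by rw [← this]; simp)
  obtain ⟨c₁, c₂, h1, h2, h12⟩ := exists_two κ
  by_cases a1 : β⁻¹ (α c₁) = cf c₁
  swap; · exact one α β γ α' β' γ' c₁ h1 a1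
  by_cases a2 : β⁻¹ (α c₂) = cf c₂
  swap; · exact one α β γ α' β' γ' c₂ h2 a2
  by_cases a3 : β'⁻¹ (α' c₁) = cf c₁
  swap
  · obtain ⟨c, d, e, q1, q2, q3, q4, q5⟩ := one α' β' γ' α β γ c₁ h1 a3
    exact ⟨c, d, e, q1, q2, q3, q5, q4⟩
  by_cases a4 : β'⁻¹ (α' c₂) = cf c₂
  swap
  · obtain ⟨c, d, e, q1, q2, q3, q4, q5⟩ := one α' β' γ' α β γ c₂ h2 a4
    exact ⟨c, d, e, q1, q2, q3, q5, q4⟩
  -- the consistent case
  have b1 : α c₁ = β (cf c₁) := by rw [← a1]; simp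
  have b2 : α c₂ = β (cf c₂) := by rw [← a2]; simp
  have b3 : α' c₁ = β' (cf c₁) := by rw [← a3]; simp
  have b4 : α' c₂ = β' (cf c₂) := by rw [← a4]; simp
  have hk : cf c₁ ≠ cf c₂ := fun e => h12 (cf.injective e)
  have hs : -(β (cf c₁) + β (cf c₂)) = -(β (cf c₂) + β (cf c₁)) := by rw [add_comm]
  have hs' : -(β' (cf c₁) + β' (cf c₂)) = -(β' (cf c₂) + β' (cf c₁)) := by rw [add_comm]
  by_cases r1 : Rb (γ⁻¹ (-(β (cf c₁) + β (cf c₂)))) (γ'⁻¹ (-(β' (cf c₁) + β' (cf c₂))))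
      (ν (cf c₂))
  · by_cases r2 : Rb (γ⁻¹ (-(β (cf c₁) + β (cf c₂)))) (γ'⁻¹ (-(β' (cf c₁) + β' (cf c₂))))
      (ν (cf c₁))
    · exact (hk (ν.injective ((rb_third _ _ _ r2).trans (rb_third _ _ _ r1).symm))).elim
    · obtain ⟨e, e1, e2, e3⟩ := exists_avoid _ _ _ r2
      refine ⟨c₂, cf c₁, e, h2, hk.symm, e3.symm, ?_, ?_⟩
      · intro hr
        have := rb_third _ _ _ hr
        rw [b2, ← hs] at this
        exact e1 (by rw [← this]; simp)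
      · intro hr
        have := rb_third _ _ _ hr
        rw [b4, ← hs'] at this
        exact e2 (by rw [← this]; simp)
  · obtain ⟨e, e1, e2, e3⟩ := exists_avoid _ _ _ r1
    refine ⟨c₁, cf c₂, e, h1, hk, e3.symm, ?_, ?_⟩
    · intro hr
      have := rb_third _ _ _ hr
      rw [b1] at this
      exact e1 (by rw [← this]; simp)
    · intro hr
      have := rb_third _ _ _ hr
      rw [b3] at this
      exact e2 (by rw [← this]; simp)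

theorem localA (σ : Fin 5 → Fin 5 → Perm (Fin 3)) (hσ : SymmCov σ) (κ : Fin 3) :
    ∃ ψ : Fin 5 → Fin 3, ψ 0 ≠ κ ∧ σ 0 1 (ψ 0) ≠ ψ 1 ∧ Good (listGraph edgesA) σ ψ ∧
      Free (listGraph edgesA) σ ψ 0 ∧ Free (listGraph edgesA) σ ψ 1 ∧
      Free (listGraph edgesA) σ ψ 4 := by
  obtain ⟨c, d, e, h1, h2, h3, h4, h5⟩ := free_triple (σ 0 2) (σ 1 2) (σ 2 4)⁻¹ (σ 0 3) (σ 1 3)
    (σ 3 4)⁻¹ (σ 0 1) (σ 1 4) κ
  obtain ⟨s, s1, s2, s3⟩ := exists_avoid _ _ _ h4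
  obtain ⟨t, t1, t2, t3⟩ := exists_avoid _ _ _ h5
  have key : ∀ f ∈ edgesA, f ∈ [((2 : Fin 5), (3 : Fin 5))] ∨
      σ f.1 f.2 (![c, d, s, t, e] f.1) ≠ ![c, d, s, t, e] f.2 := by
    simp [edgesA, s1.symm, s2.symm, ne_inv s3, t1.symm, t2.symm, ne_inv t3, h3]
  exact ⟨![c, d, s, t, e], h1, h2, good_of_list hσ (by decide) key,
    free_of_list hσ key (by decide), free_of_list hσ key (by decide),
    free_of_list hσ key (by decide)⟩

end Pool.Agent.Lib.MP_b7e22d_co
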