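import Mathlib
import Pool.Agent.Lib.MP_b7e22d_co.LocalA

/-!
The marking gadget: one vertex and two octahedra on a triangle. Every colouring of the ports
extends without conflict at the port `1` and with at most one conflict at the port `0`.
-/

namespace Pool.Agent.Lib.MP_b7e22d_co

open Equiv

/-- An octahedron `a, b, c` on the poles `x, y, w`; the hits of the poles are `p₁, p₂` at `a`,
`p₃, u` at `b` and `p₄, v` at `c`. The number `k` says which conflicts are allowed. -/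
def Oct (p₁ p₂ p₃ p₄ : Fin 3) (C₁ C₂ C₃ : Perm (Fin 3)) (u v : Fin 3) (k : Fin 7) : Prop :=
  ∃ a b c : Fin 3, (k = 3 ∨ a ≠ p₁) ∧ a ≠ p₂ ∧ b ≠ p₃ ∧ (k = 5 ∨ b ≠ u) ∧ (k = 4 ∨ c ≠ p₄) ∧
    (k = 6 ∨ c ≠ v) ∧ ((k = 0 ∨ k = 4 ∨ k = 6) ∨ C₁ a ≠ b) ∧ ((k = 1 ∨ k = 3) ∨ C₂ b ≠ c) ∧
    ((k = 2 ∨ k = 5) ∨ C₃ a ≠ c)

/-- No pole is used. -/
def OS (p₁ p₂ p₃ p₄ : Fin 3) (C₁ C₂ C₃ : Perm (Fin 3)) (u v : Fin 3) : Prop :=
  ∃ k, (k = 0 ∨ k = 1 ∨ k = 2) ∧ Oct p₁ p₂ p₃ p₄ C₁ C₂ C₃ u v k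

/-- The pole `x` is used. -/
def OX (p₁ p₂ p₃ p₄ : Fin 3) (C₁ C₂ C₃ : Perm (Fin 3)) (u v : Fin 3) : Prop :=
  ∃ k, (k = 3 ∨ k = 4) ∧ Oct p₁ p₂ p₃ p₄ C₁ C₂ C₃ u v k

/-- The pole `w` is used. -/
def OW (p₁ p₂ p₃ p₄ : Fin 3) (C₁ C₂ C₃ : Perm (Fin 3)) (u v : Fin 3) : Prop :=
  ∃ k, (k = 5 ∨ k = 6) ∧ Oct p₁ p₂ p₃ p₄ C₁ C₂ C₃ u v k

section oct

variable {p₁ p₂ p₃ p₄ : Fin 3} {C₁ C₂ C₃ : Perm (Fin 3)} {u v : Fin 3}

theorem os_ab {a b c : Fin 3} (ha1 : a ≠ p₁) (ha2 : a ≠ p₂) (hb1 : b ≠ p₃) (hb2 : b ≠ u)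
    (hc1 : c ≠ p₄) (hc2 : c ≠ v) (h2 : C₂ b ≠ c) (h3 : C₃ a ≠ c) :
    OS p₁ p₂ p₃ p₄ C₁ C₂ C₃ u v :=
  ⟨0, by simp, a, b, c, by simp_all⟩

theorem os_bc {a b c : Fin 3} (ha1 : a ≠ p₁) (ha2 : a ≠ p₂) (hb1 : b ≠ p₃) (hb2 : b ≠ u)
    (hc1 : c ≠ p₄) (hc2 : c ≠ v) (h1 : C₁ a ≠ b) (h3 : C₃ a ≠ c) :
    OS p₁ p₂ p₃ p₄ C₁ C₂ C₃ u v :=
  ⟨1, by simp, a, b, c, by simp_all⟩

theorem os_ac {a b c : Fin 3} (ha1 : a ≠ p₁) (ha2 : a ≠ p₂) (hb1 : b ≠ p₃) (hb2 : b ≠ u)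
    (hc1 : c ≠ p₄) (hc2 : c ≠ v) (h1 : C₁ a ≠ b) (h2 : C₂ b ≠ c) :
    OS p₁ p₂ p₃ p₄ C₁ C₂ C₃ u v :=
  ⟨2, by simp, a, b, c, by simp_all⟩

/-- use `x` through `a = p₁` -/
theorem ox_a {b c : Fin 3} (h : p₁ ≠ p₂) (hb1 : b ≠ p₃) (hb2 : b ≠ u)
    (hc1 : c ≠ p₄) (hc2 : c ≠ v) (h1 : C₁ p₁ ≠ b) (h3 : C₃ p₁ ≠ c) :
    OX p₁ p₂ p₃ p₄ C₁ C₂ C₃ u v :=
  ⟨3, by simp, p₁, b, c, by simp_all⟩

/-- use `x` through `c = p₄` -/
theorem ox_c {a b : Fin 3} (h : p₄ ≠ v) (ha1 : a ≠ p₁) (ha2 : a ≠ p₂) (hb1 : b ≠ p₃) (hb2 : b ≠ u)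
    (h2 : C₂ b ≠ p₄) (h3 : C₃ a ≠ p₄) :
    OX p₁ p₂ p₃ p₄ C₁ C₂ C₃ u v :=
  ⟨4, by simp, a, b, p₄, by simp_all⟩

/-- use `w` through `b = u` -/
theorem ow_b {a c : Fin 3} (h : u ≠ p₃) (ha1 : a ≠ p₁) (ha2 : a ≠ p₂)
    (hc1 : c ≠ p₄) (hc2 : c ≠ v) (h1 : C₁ a ≠ u) (h2 : C₂ u ≠ c) :
    OW p₁ p₂ p₃ p₄ C₁ C₂ C₃ u v :=
  ⟨5, by simp, a, u, c, by simp_all⟩

/-- use `w` through `c = v` -/
theorem ow_c {a b : Fin 3} (h : v ≠ p₄) (ha1 : a ≠ p₁) (ha2 : a ≠ p₂) (hb1 : b ≠ p₃) (hb2 : b ≠ u)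
    (h2 : C₂ b ≠ v) (h3 : C₃ a ≠ v) :
    OW p₁ p₂ p₃ p₄ C₁ C₂ C₃ u v :=
  ⟨6, by simp, a, b, v, by simp_all⟩

theorem ne_of_perm {C : Perm (Fin 3)} {a a' b : Fin 3} (h : C a = b) (ha : a' ≠ a) : C a' ≠ b :=
  fun e => ha (C.injective (e.trans h.symm))

theorem other : ∀ p q : Fin 3, p ≠ q → ∃ r, r ≠ p ∧ r ≠ q := by decide

/-- The octahedron property. -/
theorem oct_prop (p₁ p₂ p₃ p₄ : Fin 3) (C₁ C₂ C₃ : Perm (Fin 3)) (u v : Fin 3) :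
    OS p₁ p₂ p₃ p₄ C₁ C₂ C₃ u v ∨
    (OX p₁ p₂ p₃ p₄ C₁ C₂ C₃ u v ∧ OW p₁ p₂ p₃ p₄ C₁ C₂ C₃ u v) ∨
    ((OX p₁ p₂ p₃ p₄ C₁ C₂ C₃ u v ∨ OW p₁ p₂ p₃ p₄ C₁ C₂ C₃ u v) ∧
      ∀ u' v', u' ≠ u → v' ≠ v → OS p₁ p₂ p₃ p₄ C₁ C₂ C₃ u' v') := by
  by_cases hS : OS p₁ p₂ p₃ p₄ C₁ C₂ C₃ u v
  · exact Or.inl hS
  right
  obtain ⟨a, ha1, ha2⟩ := exists_avoid2 p₁ p₂
  obtain ⟨b, hb1, hb2⟩ := exists_avoid2 p₃ u
  obtain ⟨c, hc1, hc2⟩ := exists_avoid2 p₄ v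
  by_cases ab : C₁ a = b
  · by_cases bc : C₂ b = c
    · -- two conflicts at `b`
      have hu : u ≠ p₃ := by
        rintro rfl
        obtain ⟨b', hb', hb''⟩ := other b u hb1
        by_cases ac : C₃ a = c
        · exact hS (os_ac ha1 ha2 hb'' hb'' hc1 hc2 (fun e => hb' (e.symm.trans ab))
            (ne_of_perm bc hb'))
        · exact hS (os_bc ha1 ha2 hb'' hb'' hc1 hc2 (fun e => hb' (e.symm.trans ab)) ac)
      have hW : OW p₁ p₂ p₃ p₄ C₁ C₂ C₃ u v :=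
        ow_b hu ha1 ha2 hc1 hc2 (fun e => hb2 (ab.symm.trans e)) (ne_of_perm bc hb2.symm)
      by_cases hp : p₁ = p₂
      · -- another free colour for `a`
        obtain ⟨a', ha', ha''⟩ := other a p₁ ha1
        have e1 : C₁ a' ≠ b := ne_of_perm ab ha'
        have e3 : C₃ a' = c := by
          by_contra h
          exact hS (os_bc ha'' (hp ▸ ha'') hb1 hb2 hc1 hc2 e1 h)
        by_cases hv : p₄ = v
        · obtain ⟨c', hc', hc''⟩ := other c p₄ hc1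
          exact (hS (os_ab ha'' (hp ▸ ha'') hb1 hb2 hc'' (hv ▸ hc'')
            (fun e => hc' (e.symm.trans bc)) (fun e => hc' (e.symm.trans e3)))).elim
        · exact Or.inl ⟨ox_c hv ha'' (hp ▸ ha'') hb1 hb2 (fun e => hc1 (bc.symm.trans e))
            (fun e => hc1 (e3.symm.trans e)), hW⟩
      · by_cases q : C₃ p₁ = c
        · by_cases hv : p₄ = v
          · obtain ⟨c', hc', hc''⟩ := other c p₄ hc1
            exact Or.inl ⟨ox_a hp hb1 hb2 hc'' (hv ▸ hc'') (ne_of_perm ab ha1.symm)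
              (fun e => hc' (e.symm.trans q)), hW⟩
          · by_cases r : C₃ a = p₄
            · refine Or.inr ⟨Or.inr hW, fun u' v' hu' hv' => ?_⟩
              exact os_bc ha1 ha2 hu hu'.symm (Ne.symm hv) hv'.symm
                (fun e => hb2 (ab.symm.trans e)) (fun e => hv (r.symm.trans e))
            · exact Or.inl ⟨ox_c hv ha1 ha2 hb1 hb2 (fun e => hc1 (bc.symm.trans e)) r, hW⟩
        · exact Or.inl ⟨ox_a hp hb1 hb2 hc1 hc2 (ne_of_perm ab ha1.symm) q, hW⟩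
    · by_cases ac : C₃ a = c
      · -- two conflicts at `a`
        have hp : p₁ ≠ p₂ := by
          rintro rfl
          obtain ⟨a', ha', ha''⟩ := other a p₁ ha1
          exact hS (os_bc ha'' ha'' hb1 hb2 hc1 hc2 (ne_of_perm ab ha') (ne_of_perm ac ha'))
        have hX : OX p₁ p₂ p₃ p₄ C₁ C₂ C₃ u v :=
          ox_a hp hb1 hb2 hc1 hc2 (ne_of_perm ab ha1.symm) (ne_of_perm ac ha1.symm)
        by_cases hu : u = p₃
        · subst hu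
          obtain ⟨b', hb', hb''⟩ := other b u hb1
          have e1 : C₁ a ≠ b' := fun e => hb' (e.symm.trans ab)
          have e2 : C₂ b' = c := by
            by_contra h
            exact hS (os_ac ha1 ha2 hb'' hb'' hc1 hc2 e1 h)
          by_cases hv : v = p₄
          · subst hv
            obtain ⟨c', hc', hc''⟩ := other c v hc1
            exact (hS (os_bc ha1 ha2 hb'' hb'' hc'' hc'' e1 (fun e => hc' (e.symm.trans ac)))).elim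
          · exact Or.inl ⟨hX, ow_c hv ha1 ha2 hb'' hb'' (fun e => hc2 (e2.symm.trans e))
              (fun e => hc2 (ac.symm.trans e))⟩
        · by_cases q : C₂ u = c
          · by_cases hv : v = p₄
            · subst hv
              obtain ⟨c', hc', hc''⟩ := other c v hc1
              exact Or.inl ⟨hX, ow_b hu ha1 ha2 hc'' hc'' (fun e => hb2 (ab.symm.trans e))
                (fun e => hc' (e.symm.trans q))⟩
            · by_cases r : C₂ b = v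
              · refine Or.inr ⟨Or.inl hX, fun u' v' hu' hv' => ?_⟩
                exact os_bc ha1 ha2 hu hu'.symm hv hv'.symm (fun e => hb2 (ab.symm.trans e))
                  (fun e => hc2 (ac.symm.trans e))
              · exact Or.inl ⟨hX, ow_c hv ha1 ha2 hb1 hb2 r (fun e => hc2 (ac.symm.trans e))⟩
          · exact Or.inl ⟨hX, ow_b hu ha1 ha2 hc1 hc2 (fun e => hb2 (ab.symm.trans e)) q⟩
      · exact (hS (os_ab ha1 ha2 hb1 hb2 hc1 hc2 bc ac)).elim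
  · by_cases bc : C₂ b = c
    · by_cases ac : C₃ a = c
      · -- two conflicts at `c`
        have hv : v ≠ p₄ := by
          rintro rfl
          obtain ⟨c', hc', hc''⟩ := other c v hc1
          exact hS (os_ab ha1 ha2 hb1 hb2 hc'' hc'' (fun e => hc' (e.symm.trans bc))
            (fun e => hc' (e.symm.trans ac)))
        exact Or.inl ⟨ox_c hv.symm ha1 ha2 hb1 hb2 (fun e => hc1 (bc.symm.trans e))
            (fun e => hc1 (ac.symm.trans e)),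
          ow_c hv ha1 ha2 hb1 hb2 (fun e => hc2 (bc.symm.trans e))
            (fun e => hc2 (ac.symm.trans e))⟩
      · exact (hS (os_bc ha1 ha2 hb1 hb2 hc1 hc2 ab ac)).elim
    · exact (hS (os_ac ha1 ha2 hb1 hb2 hc1 hc2 ab bc)).elim

end oct

end Pool.Agent.Lib.MP_b7e22d_co
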