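import Mathlib
import Pool.Agent.Lib.MP_b7e22d_co.LocalM

/-!
The marking gadget: assembly of the two octahedra.
-/

namespace Pool.Agent.Lib.MP_b7e22d_co

open Equiv

/-- The pairs of the list are pairwise disjoint. -/
def Mat {n : ℕ} (M : List (Fin n × Fin n)) : Prop :=
  M.Pairwise (fun e f => e.1 ≠ f.1 ∧ e.1 ≠ f.2 ∧ e.2 ≠ f.1 ∧ e.2 ≠ f.2) ∧ ∀ e ∈ M, e.1 ≠ e.2

instance {n : ℕ} (M : List (Fin n × Fin n)) : Decidable (Mat M) :=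
  inferInstanceAs (Decidable (_ ∧ _))

theorem mat_share {n : ℕ} {M : List (Fin n × Fin n)} (h : Mat M) {e f : Fin n × Fin n}
    (he : e ∈ M) (hf : f ∈ M) (hs : e.1 = f.1 ∨ e.1 = f.2 ∨ e.2 = f.1 ∨ e.2 = f.2) : e = f := by
  obtain ⟨hp, -⟩ := h
  induction M with
  | nil => simp at he
  | cons g M ih =>
    rw [List.pairwise_cons] at hp
    rcases List.mem_cons.1 he with rfl | he'
    · rcases List.mem_cons.1 hf with rfl | hf'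
      · rfl
      · have := hp.1 _ hf'
        tauto
    · rcases List.mem_cons.1 hf with rfl | hf'
      · obtain ⟨h1, h2, h3, h4⟩ := hp.1 _ he'
        have := h1.symm
        have := h2.symm
        have := h3.symm
        have := h4.symm
        tauto
      · exact ih he' hf' hp.2

theorem mat_prop {n : ℕ} {M : List (Fin n × Fin n)} (h : Mat M) (i j k : Fin n)
    (h1 : (i, j) ∈ M ∨ (j, i) ∈ M) (h2 : (i, k) ∈ M ∨ (k, i) ∈ M) : j = k := by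
  rcases h1 with h1 | h1 <;> rcases h2 with h2 | h2
  · have := mat_share h h1 h2 (by simp)
    simpa using this
  · have := mat_share h h1 h2 (by simp)
    simp only [Prod.mk.injEq] at this
    exact (h.2 _ h1 (by simp [this.2])).elim
  · have := mat_share h h1 h2 (by simp)
    simp only [Prod.mk.injEq] at this
    exact (h.2 _ h1 (by simp [this.1])).elim
  · have := mat_share h h1 h2 (by simp)
    simp only [Prod.mk.injEq] at this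
    exact this.1

/-- The allowed conflicts of the first octahedron. -/
def M1 : Fin 7 → List (Fin 9 × Fin 9) :=
  ![[(3,4)], [(4,5)], [(3,5)], [(0,3),(4,5)], [(0,5),(3,4)], [(2,4),(3,5)], [(2,5),(3,4)]]

/-- The allowed conflicts of the second octahedron. -/
def M2 : Fin 7 → List (Fin 9 × Fin 9) :=
  ![[(6,7)], [(7,8)], [(6,8)], [(0,6),(7,8)], [(0,8),(6,7)], [(2,7),(6,8)], [(2,8),(6,7)]]

/-- The edges of the first octahedron. -/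
def l1 : List (Fin 9 × Fin 9) := [(0,3),(1,3),(1,4),(2,4),(0,5),(2,5),(3,4),(4,5),(3,5)]

/-- The edges of the second octahedron. -/
def l2 : List (Fin 9 × Fin 9) := [(0,6),(1,6),(1,7),(2,7),(0,8),(2,8),(6,7),(7,8),(6,8)]

theorem fin7 (k : Fin 7) : k = 0 ∨ k = 1 ∨ k = 2 ∨ k = 3 ∨ k = 4 ∨ k = 5 ∨ k = 6 := by
  revert k; decide

theorem oct1 (σ : Fin 9 → Fin 9 → Perm (Fin 3)) {x y w : Fin 3} {k : Fin 7}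
    (h : Oct (σ 0 3 x) (σ 1 3 y) (σ 1 4 y) (σ 0 5 x) (σ 3 4) (σ 4 5) (σ 3 5) (σ 2 4 w) (σ 2 5 w) k) :
    ∃ a b c : Fin 3, ∀ a' b' c' : Fin 3, ∀ e ∈ l1, e ∈ M1 k ∨
      σ e.1 e.2 (![x, y, w, a, b, c, a', b', c'] e.1) ≠ ![x, y, w, a, b, c, a', b', c'] e.2 := by
  obtain ⟨a, b, c, h1, h2, h3, h4, h5, h6, h7, h8, h9⟩ := h
  refine ⟨a, b, c, fun a' b' c' => ?_⟩
  rcases fin7 k with rfl | rfl | rfl | rfl | rfl | rfl | rfl <;>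
    simp [l1, M1] at h1 h4 h5 h6 h7 h8 h9 ⊢ <;>
    simp_all [eq_comm (b := a), eq_comm (b := b), eq_comm (b := c)]

theorem oct2 (σ : Fin 9 → Fin 9 → Perm (Fin 3)) {x y w : Fin 3} {k : Fin 7}
    (h : Oct (σ 0 6 x) (σ 1 6 y) (σ 1 7 y) (σ 0 8 x) (σ 6 7) (σ 7 8) (σ 6 8) (σ 2 7 w) (σ 2 8 w) k) :
    ∃ a b c : Fin 3, ∀ a' b' c' : Fin 3, ∀ e ∈ l2, e ∈ M2 k ∨
      σ e.1 e.2 (![x, y, w, a', b', c', a, b, c] e.1) ≠ ![x, y, w, a', b', c', a, b, c] e.2 := by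
  obtain ⟨a, b, c, h1, h2, h3, h4, h5, h6, h7, h8, h9⟩ := h
  refine ⟨a, b, c, fun a' b' c' => ?_⟩
  rcases fin7 k with rfl | rfl | rfl | rfl | rfl | rfl | rfl <;>
    simp [l2, M2] at h1 h4 h5 h6 h7 h8 h9 ⊢ <;>
    simp_all [eq_comm (b := a), eq_comm (b := b), eq_comm (b := c)]

theorem mat_S : ∀ k₁ k₂ : Fin 7, (k₁ = 0 ∨ k₁ = 1 ∨ k₁ = 2) → (k₂ = 0 ∨ k₂ = 1 ∨ k₂ = 2) →
    Mat (M1 k₁ ++ M2 k₂ ++ [(0, 2)]) := by decide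

theorem mat_any : ∀ k₁ k₂ : Fin 7, ((k₁ = 0 ∨ k₁ = 1 ∨ k₁ = 2) ∨ (k₂ = 0 ∨ k₂ = 1 ∨ k₂ = 2)) ∨
    ((k₁ = 3 ∨ k₁ = 4) ∧ (k₂ = 5 ∨ k₂ = 6)) ∨ ((k₁ = 5 ∨ k₁ = 6) ∧ (k₂ = 3 ∨ k₂ = 4)) →
    Mat (M1 k₁ ++ M2 k₂ ++ []) := by decide

theorem no_one : ∀ k₁ k₂ : Fin 7, ∀ e ∈ M1 k₁ ++ M2 k₂ ++ [(0, 2)], e.1 ≠ 1 ∧ e.2 ≠ 1 := by
  decide

/-- Assembly for given numbers `k₁, k₂` and given list `M₃` of conflicts of `w`. -/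
theorem mkM {σ : Fin 9 → Fin 9 → Perm (Fin 3)} (hσ : SymmCov σ) {x y w : Fin 3} {k₁ k₂ : Fin 7}
    {M₃ : List (Fin 9 × Fin 9)} (hM₃ : M₃ = [] ∨ M₃ = [(0, 2)])
    (hw0 : (0, 2) ∈ M₃ ∨ σ 0 2 x ≠ w) (hw1 : σ 1 2 y ≠ w)
    (h1 : Oct (σ 0 3 x) (σ 1 3 y) (σ 1 4 y) (σ 0 5 x) (σ 3 4) (σ 4 5) (σ 3 5) (σ 2 4 w) (σ 2 5 w) k₁)
    (h2 : Oct (σ 0 6 x) (σ 1 6 y) (σ 1 7 y) (σ 0 8 x) (σ 6 7) (σ 7 8) (σ 6 8) (σ 2 7 w) (σ 2 8 w) k₂)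
    (hM : Mat (M1 k₁ ++ M2 k₂ ++ M₃)) :
    ∃ ψ : Fin 9 → Fin 3, ψ 0 = x ∧ ψ 1 = y ∧ Good (listGraph edgesM) σ ψ ∧
      Free (listGraph edgesM) σ ψ 1 := by
  obtain ⟨a, b, c, f1⟩ := oct1 σ h1
  obtain ⟨a', b', c', f2⟩ := oct2 σ h2
  have key : ∀ e ∈ edgesM, e ∈ M1 k₁ ++ M2 k₂ ++ M₃ ∨
      σ e.1 e.2 (![x, y, w, a, b, c, a', b', c'] e.1) ≠ ![x, y, w, a, b, c, a', b', c'] e.2 := by
    intro e he
    have hsplit : e = (0, 2) ∨ e = (1, 2) ∨ e ∈ l1 ∨ e ∈ l2 := by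
      revert e; decide
    rcases hsplit with rfl | rfl | h | h
    · rcases hw0 with h | h
      · exact Or.inl (List.mem_append_right _ h)
      · exact Or.inr (by simpa using h)
    · exact Or.inr (by simpa using hw1)
    · rcases f1 a' b' c' e h with h | h
      · exact Or.inl (List.mem_append_left _ (List.mem_append_left _ h))
      · exact Or.inr h
    · rcases f2 a b c e h with h | h
      · exact Or.inl (List.mem_append_left _ (List.mem_append_right _ h))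
      · exact Or.inr h
  refine ⟨_, rfl, rfl, good_of_list hσ (mat_prop hM) key, free_of_list hσ key ?_⟩
  intro j hj
  have hsub : ∀ e ∈ M1 k₁ ++ M2 k₂ ++ M₃, e ∈ M1 k₁ ++ M2 k₂ ++ [(0, 2)] := by
    intro e he
    rcases hM₃ with rfl | rfl
    · simp only [List.append_nil] at he
      exact List.mem_append_left _ he
    · exact he
  rcases hj with hj | hj
  · exact (no_one _ _ _ (hsub _ hj)).1 rfl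
  · exact (no_one _ _ _ (hsub _ hj)).2 rfl

theorem localM (σ : Fin 9 → Fin 9 → Perm (Fin 3)) (hσ : SymmCov σ) (x y : Fin 3) :
    ∃ ψ : Fin 9 → Fin 3, ψ 0 = x ∧ ψ 1 = y ∧ Good (listGraph edgesM) σ ψ ∧
      Free (listGraph edgesM) σ ψ 1 := by
  obtain ⟨w, hw0, hw1⟩ := exists_avoid2 (σ 0 2 x) (σ 1 2 y)
  have P1 := oct_prop (σ 0 3 x) (σ 1 3 y) (σ 1 4 y) (σ 0 5 x) (σ 3 4) (σ 4 5) (σ 3 5)
    (σ 2 4 w) (σ 2 5 w)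
  have P2 := oct_prop (σ 0 6 x) (σ 1 6 y) (σ 1 7 y) (σ 0 8 x) (σ 6 7) (σ 7 8) (σ 6 8)
    (σ 2 7 w) (σ 2 8 w)
  -- the case that the colour `w` works
  have fin : ∀ k₁ k₂ : Fin 7, Oct (σ 0 3 x) (σ 1 3 y) (σ 1 4 y) (σ 0 5 x) (σ 3 4) (σ 4 5) (σ 3 5)
      (σ 2 4 w) (σ 2 5 w) k₁ → Oct (σ 0 6 x) (σ 1 6 y) (σ 1 7 y) (σ 0 8 x) (σ 6 7) (σ 7 8) (σ 6 8)
      (σ 2 7 w) (σ 2 8 w) k₂ → (((k₁ = 0 ∨ k₁ = 1 ∨ k₁ = 2) ∨ (k₂ = 0 ∨ k₂ = 1 ∨ k₂ = 2)) ∨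
    ((k₁ = 3 ∨ k₁ = 4) ∧ (k₂ = 5 ∨ k₂ = 6)) ∨ ((k₁ = 5 ∨ k₁ = 6) ∧ (k₂ = 3 ∨ k₂ = 4))) →
      ∃ ψ : Fin 9 → Fin 3, ψ 0 = x ∧ ψ 1 = y ∧ Good (listGraph edgesM) σ ψ ∧
      Free (listGraph edgesM) σ ψ 1 := by
    intro k₁ k₂ h1 h2 hk
    exact mkM hσ (Or.inl rfl) (Or.inr hw0.symm) hw1.symm h1 h2 (mat_any _ _ hk)
  rcases P1 with ⟨k₁, hk₁, O1⟩ | P1
  · -- the first octahedron is strict
    have : ∃ k₂, Oct (σ 0 6 x) (σ 1 6 y) (σ 1 7 y) (σ 0 8 x) (σ 6 7) (σ 7 8) (σ 6 8)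
      (σ 2 7 w) (σ 2 8 w) k₂ := by
      rcases P2 with ⟨k₂, _, O2⟩ | ⟨⟨k₂, _, O2⟩, _⟩ | ⟨⟨k₂, _, O2⟩ | ⟨k₂, _, O2⟩, _⟩ <;>
        exact ⟨k₂, O2⟩
    obtain ⟨k₂, O2⟩ := this
    exact fin k₁ k₂ O1 O2 (Or.inl (Or.inl hk₁))
  rcases P2 with ⟨k₂, hk₂, O2⟩ | P2
  · have : ∃ k₁, Oct (σ 0 3 x) (σ 1 3 y) (σ 1 4 y) (σ 0 5 x) (σ 3 4) (σ 4 5) (σ 3 5)
      (σ 2 4 w) (σ 2 5 w) k₁ := by
      rcases P1 with ⟨⟨k₁, _, O1⟩, _⟩ | ⟨⟨k₁, _, O1⟩ | ⟨k₁, _, O1⟩, _⟩ <;> exact ⟨k₁, O1⟩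
    obtain ⟨k₁, O1⟩ := this
    exact fin k₁ k₂ O1 O2 (Or.inl (Or.inr hk₂))
  rcases P1 with ⟨⟨k₁, hk₁, O1⟩, ⟨k₁', hk₁', O1'⟩⟩ | ⟨P1, S1⟩
  · rcases P2 with ⟨⟨k₂, hk₂, O2⟩, _⟩ | ⟨⟨k₂, hk₂, O2⟩ | ⟨k₂, hk₂, O2⟩, _⟩
    · exact fin k₁' k₂ O1' O2 (Or.inr (Or.inr ⟨hk₁', hk₂⟩))
    · exact fin k₁' k₂ O1' O2 (Or.inr (Or.inr ⟨hk₁', hk₂⟩))
    · exact fin k₁ k₂ O1 O2 (Or.inr (Or.inl ⟨hk₁, hk₂⟩))
  rcases P2 with ⟨⟨k₂, hk₂, O2⟩, ⟨k₂', hk₂', O2'⟩⟩ | ⟨-, S2⟩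
  · rcases P1 with ⟨k₁, hk₁, O1⟩ | ⟨k₁, hk₁, O1⟩
    · exact fin k₁ k₂' O1 O2' (Or.inr (Or.inl ⟨hk₁, hk₂'⟩))
    · exact fin k₁ k₂ O1 O2 (Or.inr (Or.inr ⟨hk₁, hk₂⟩))
  -- change the colour of `w`
  have hchange : ∀ w' : Fin 3, w' ≠ w → σ 1 2 y ≠ w' →
      ∃ ψ : Fin 9 → Fin 3, ψ 0 = x ∧ ψ 1 = y ∧ Good (listGraph edgesM) σ ψ ∧
      Free (listGraph edgesM) σ ψ 1 := by
    intro w' hw' hy
    obtain ⟨k₁, hk₁, O1⟩ := S1 (σ 2 4 w') (σ 2 5 w') (fun e => hw' ((σ 2 4).injective e))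
      (fun e => hw' ((σ 2 5).injective e))
    obtain ⟨k₂, hk₂, O2⟩ := S2 (σ 2 7 w') (σ 2 8 w') (fun e => hw' ((σ 2 7).injective e))
      (fun e => hw' ((σ 2 8).injective e))
    exact mkM hσ (Or.inr rfl) (Or.inl (by simp)) hy O1 O2 (mat_S _ _ hk₁ hk₂)
  obtain ⟨w', h1, h2⟩ := exists_avoid2 w (σ 1 2 y)
  exact hchange w' h1 h2.symm

end Pool.Agent.Lib.MP_b7e22d_co
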