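import Mathlib
import Pool.Agent.Lib.MP_b7e22d_co.Embed

/-!
The chain of blocks is planar.
-/

namespace Pool.Agent.Lib.MP_b7e22d_co

/-- There is a straight line drawing with an empty triangle at the edge of the ports. -/
def PlanarState (P : PG) : Prop :=
  ∃ (pt : P.V → ℝ × ℝ) (Z : ℝ × ℝ), SegDraw P.G pt ∧ orient (pt P.x) (pt P.y) Z ≠ 0 ∧
    Avoid P.G pt (tri (pt P.x) (pt P.y) Z)

theorem planar_att {P : PG} (h : PlanarState P) {N : ℤ} {m : ℕ}
    {l : List (Fin (m + 2) × Fin (m + 2))} {p : Fin (m + 2) → ℤ × ℤ} {a b c : Fin (m + 2)}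
    (hc : Chk N l p a b c) (hab : (listGraph l).Adj a b) : PlanarState (P.att l a b hab) := by
  obtain ⟨pt, Z, hG, hD, hT⟩ := h
  obtain ⟨g, g0, g1, gnew, gseg, gdraw, gne, gsub, gav⟩ := chk_embed hc hD
  refine ⟨Sum.elim pt fun j : Fin m => g j.succ.succ, g c,
    segDraw_attach hT g0 g1 gnew gseg hG gdraw, ?_, ?_⟩
  · change orient (Sum.elim pt (fun j : Fin m => g j.succ.succ) (loc P.x P.y a))
      (Sum.elim pt (fun j : Fin m => g j.succ.succ) (loc P.x P.y b)) (g c) ≠ 0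
    rw [elim_loc' g0 g1, elim_loc' g0 g1]
    exact gne
  · change Avoid (attach P.G P.x P.y (listGraph l)) (Sum.elim pt fun j : Fin m => g j.succ.succ)
      (tri (Sum.elim pt (fun j : Fin m => g j.succ.succ) (loc P.x P.y a))
      (Sum.elim pt (fun j : Fin m => g j.succ.succ) (loc P.x P.y b)) (g c))
    rw [elim_loc' g0 g1, elim_loc' g0 g1]
    exact avoid_attach hT gsub g0 g1 gav

theorem planar_mark {P : PG} (h : PlanarState P) {N : ℤ} {m : ℕ}
    {l : List (Fin (m + 2) × Fin (m + 2))} {p : Fin (m + 2) → ℤ × ℤ} {c : Fin (m + 2)}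
    (hc : Chk N l p 0 1 c) : PlanarState (P.mark l) := by
  obtain ⟨pt, Z, hG, hD, hT⟩ := h
  obtain ⟨g, g0, g1, gnew, gseg, gdraw, gne, gsub, gav⟩ := chk_embed hc hD
  refine ⟨Sum.elim pt fun j : Fin m => g j.succ.succ, g c,
    segDraw_attach hT g0 g1 gnew gseg hG gdraw, ?_, ?_⟩
  · change orient (pt P.x) (pt P.y) (g c) ≠ 0
    rw [← g0, ← g1]
    exact gne
  · change Avoid (attach P.G P.x P.y (listGraph l)) (Sum.elim pt fun j : Fin m => g j.succ.succ)
      (tri (pt P.x) (pt P.y) (g c))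
    rw [← g0, ← g1]
    exact avoid_attach hT gsub g0 g1 gav

theorem planar_block {P : PG} (h : PlanarState P) : PlanarState P.block :=
  planar_mark (planar_att (planar_att (planar_att h chkD _) chkD _) chkA _) chkM

theorem planar_base : PlanarState PG.base := by
  have hadj : ∀ u v : Fin 2, u ≠ v → (u = 0 ∧ v = 1) ∨ (u = 1 ∧ v = 0) := by decide
  have hall : ∀ w : Fin 2, w = 0 ∨ w = 1 := by decide
  let pt : Fin 2 → ℝ × ℝ := ![(0, 0), (1, 0)]
  have p0 : pt 0 = (0, 0) := rfl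
  have p1 : pt 1 = (1, 0) := rfl
  have hne : pt 0 ≠ pt 1 := by
    rw [p0, p1]
    simp
  have hz : ∀ u v : Fin 2, ∀ z ∈ segment ℝ (pt u) (pt v), orient (pt 0) (pt 1) z = 0 := by
    intro u v z hz
    obtain ⟨a, b, _, _, hab, rfl⟩ := hz
    rw [orient_comb _ _ _ _ hab]
    rcases hall u with rfl | rfl <;> rcases hall v with rfl | rfl <;> simp
  refine ⟨pt, (0, 1), ⟨?_, ?_, ?_⟩, ?_, ?_, ?_⟩
  · intro u v huv
    rcases hall u with rfl | rfl <;> rcases hall v with rfl | rfl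
    · rfl
    · exact (hne huv).elim
    · exact (hne huv.symm).elim
    · rfl
  · intro u v huv w _
    rcases hadj u v huv.ne with ⟨rfl, rfl⟩ | ⟨rfl, rfl⟩
    · exact hall w
    · exact (hall w).symm
  · intro u v huv u' v' huv' hne' z _ _
    exfalso
    apply hne'
    rcases hadj u v huv.ne with ⟨rfl, rfl⟩ | ⟨rfl, rfl⟩ <;>
      rcases hadj u' v' huv'.ne with ⟨rfl, rfl⟩ | ⟨rfl, rfl⟩
    · rfl
    · exact Sym2.eq_swap
    · exact Sym2.eq_swap
    · rfl
  · change orient (pt 0) (pt 1) (0, 1) ≠ 0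
    rw [p0, p1]
    simp [orient]
  · intro v hv
    have hv' := hv.1
    change 0 < orient (pt 0) (pt 1) (0, 1) * orient (pt 0) (pt 1) (pt v) at hv'
    rw [hz v v (pt v) (left_mem_segment ℝ _ _)] at hv'
    simp at hv'
  · intro u v _ z hzz hv
    have hv' := hv.1
    change 0 < orient (pt 0) (pt 1) (0, 1) * orient (pt 0) (pt 1) z at hv'
    rw [hz u v z hzz] at hv'
    simp at hv'

theorem planar_chain (n : ℕ) : PlanarState (PG.chain n) := by
  induction n with
  | zero => exact planar_base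
  | succ n ih => exact planar_block ih

theorem isPlanar_chain (n : ℕ) : IsPlanar (PG.chain n).G := by
  obtain ⟨_, _, h, _⟩ := planar_chain n
  exact isPlanar_of_segDraw h

end Pool.Agent.Lib.MP_b7e22d_co
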