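import Mathlib
import Pool.Agent.Lib.MP_b7e22d_co.Defs
import Pool.Agent.Lib.MP_b7e22d_co.Glue

/-!
Correspondence covers reduce to permutation covers.
-/

namespace Pool.Agent.Lib.MP_b7e22d_co

open Equiv

/-- A matching between two sets of three elements extends to a permutation. -/
theorem exists_perm (R : Fin 3 → Fin 3 → Prop) (h1 : ∀ a b c, R a b → R a c → b = c)
    (h2 : ∀ a b c, R a c → R b c → a = b) : ∃ π : Perm (Fin 3), ∀ a b, R a b → π a = b := by
  classical
  let f : {a // ∃ b, R a b} → {b // ∃ a, R a b} := fun a => ⟨a.2.choose, a.1, a.2.choose_spec⟩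
  have hf : Function.Bijective f := by
    constructor
    · intro a a' h
      have h' : a.2.choose = a'.2.choose := congrArg Subtype.val h
      have s := a.2.choose_spec
      rw [h'] at s
      exact Subtype.ext (h2 _ _ _ s a'.2.choose_spec)
    · rintro ⟨b, a, hab⟩
      exact ⟨⟨a, b, hab⟩, Subtype.ext (h1 _ _ _ (Exists.choose_spec (⟨b, hab⟩ : ∃ b, R a b)) hab)⟩
  refine ⟨(Equiv.ofBijective f hf).extendSubtype, fun a b hab => ?_⟩
  rw [Equiv.extendSubtype_apply_of_mem _ a ⟨b, hab⟩]
  exact h1 _ _ _ (Exists.choose_spec (⟨b, hab⟩ : ∃ b, R a b)) hab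

theorem defective_of_good {V : Type} [Fintype V] (G : SimpleGraph V)
    (h : ∀ σ : V → V → Perm (Fin 3), SymmCov σ → ∃ φ, Good G σ φ) :
    IsDefectiveCorrespondable G 1 3 := by
  classical
  intro W L H hc
  let e : ∀ v, Fin 3 ≃ L v := fun v => (Finset.equivFinOfCardEq (hc.card_eq v)).symm
  have hτ : ∀ u v, ∃ π : Perm (Fin 3), G.Adj u v →
      ∀ a b, H.Adj (e u a : W) (e v b : W) → π a = b := by
    intro u v
    by_cases huv : G.Adj u v
    · obtain ⟨π, hπ⟩ := exists_perm (fun a b => H.Adj (e u a : W) (e v b : W)) (by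
        intro a b c hb hc'
        have := hc.matching u v huv _ (e u a).2 _ (e v b).2 _ (e v c).2 hb hc'
        exact (e v).injective (Subtype.ext this)) (by
        intro a b c hb hc'
        have := hc.matching v u huv.symm _ (e v c).2 _ (e u a).2 _ (e u b).2 hb.symm hc'.symm
        exact (e u).injective (Subtype.ext this))
      exact ⟨π, fun _ => hπ⟩
    · exact ⟨1, fun h => (huv h).elim⟩
  choose τ hτ using hτ
  let f : V → ℕ := fun v => (Fintype.equivFin V v : ℕ)
  have hf : Function.Injective f := fun u v huv => (Fintype.equivFin V).injective (Fin.ext huv)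
  let σ : V → V → Perm (Fin 3) := fun u v => if f u < f v then τ u v else (τ v u)⁻¹
  have hσ : SymmCov σ := by
    intro u v huv
    have hne : f u ≠ f v := fun e => huv (hf e)
    rcases lt_or_gt_of_ne hne with hlt | hlt
    · simp [σ, hlt, hlt.asymm]
    · simp [σ, hlt, hlt.asymm]
  have hσ' : ∀ u v, G.Adj u v → ∀ a b, H.Adj (e u a : W) (e v b : W) → σ u v a = b := by
    intro u v huv a b hab
    by_cases hlt : f u < f v
    · simp only [σ, hlt, if_true]
      exact hτ u v huv a b hab
    · simp only [σ, hlt, if_false]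
      rw [← hτ v u huv.symm b a hab.symm]
      simp
  obtain ⟨φ, hφ⟩ := h σ hσ
  refine ⟨Finset.univ.image fun v => (e v (φ v) : W), fun v => ?_, fun x hx => ?_⟩
  · refine ⟨e v (φ v), ⟨Finset.mem_image_of_mem _ (Finset.mem_univ v), (e v (φ v)).2⟩, ?_⟩
    rintro x ⟨hx, hxv⟩
    obtain ⟨u, -, rfl⟩ := Finset.mem_image.1 hx
    obtain rfl := (hc.partition _).unique hxv (e u (φ u)).2
    rfl
  · obtain ⟨u, -, rfl⟩ := Finset.mem_image.1 hx
    have conf : ∀ v, H.Adj (e u (φ u) : W) (e v (φ v) : W) → Conf G σ φ u v := by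
      intro v hv
      have hne : u ≠ v := by
        rintro rfl
        exact hv.ne rfl
      have hadj : G.Adj u v := by
        by_contra hnot
        exact hc.no_edge u v hne hnot _ (e u (φ u)).2 _ (e v (φ v)).2 hv
      exact ⟨hadj, hσ' u v hadj _ _ hv⟩
    rw [Finset.card_le_one]
    intro y hy z hz
    rw [Finset.mem_filter] at hy hz
    obtain ⟨hy, hy'⟩ := hy
    obtain ⟨hz, hz'⟩ := hz
    obtain ⟨v, -, rfl⟩ := Finset.mem_image.1 hy
    obtain ⟨w, -, rfl⟩ := Finset.mem_image.1 hz
    rw [hφ _ _ _ (conf v hy') (conf w hz')]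

end Pool.Agent.Lib.MP_b7e22d_co
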