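import Mathlib
import Pool.Agent.Lib.MP_b7e22d_co.Chain
import Pool.Agent.Lib.MP_b7e22d_co.LocalD
import Pool.Agent.Lib.MP_b7e22d_co.LocalA
import Pool.Agent.Lib.MP_b7e22d_co.LocalM2

/-!
Every permutation cover with three colours of a chain of blocks has a colouring of defect 1.
-/

namespace Pool.Agent.Lib.MP_b7e22d_co

open Equiv

/-- There is a good colouring without conflict at the second port. -/
def StageA (P : PG) : Prop :=
  ∀ σ : P.V → P.V → Perm (Fin 3), SymmCov σ → ∃ φ, Good P.G σ φ ∧ Free P.G σ φ P.y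

/-- For some colour of the first port all colours of the second port that cause no conflict are
possible. -/
def StageB (P : PG) : Prop :=
  ∀ σ : P.V → P.V → Perm (Fin 3), SymmCov σ → ∃ b, ∀ c, σ P.x P.y b ≠ c →
    ∃ φ, φ P.x = b ∧ φ P.y = c ∧ Good P.G σ φ ∧ Free P.G σ φ P.y

/-- All colours of the ports that cause no conflict are possible, except for one colour of the first
port. -/
def StageC (P : PG) : Prop :=
  ∀ σ : P.V → P.V → Perm (Fin 3), SymmCov σ → ∃ κ, ∀ c, c ≠ κ → ∀ d, σ P.x P.y c ≠ d →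
    ∃ φ, φ P.x = c ∧ φ P.y = d ∧ Good P.G σ φ ∧ Free P.G σ φ P.y

/-- There is a good colouring without conflict at the ports. -/
def StageD (P : PG) : Prop :=
  ∀ σ : P.V → P.V → Perm (Fin 3), SymmCov σ → ∃ φ, Good P.G σ φ ∧ Free P.G σ φ P.x ∧
    Free P.G σ φ P.y

theorem stageA_base : StageA PG.base := by
  intro σ hσ
  change Fin 2 → Fin 2 → Perm (Fin 3) at σ
  obtain ⟨c, hc⟩ : ∃ c : Fin 3, σ 0 1 0 ≠ c :=
    ⟨σ 0 1 0 + 1, by
      generalize σ 0 1 0 = z
      revert z; decide⟩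
  have h01 : (0 : Fin 2) ≠ 1 := by decide
  have h10 : σ 1 0 = (σ 0 1)⁻¹ := hσ (0 : Fin 2) (1 : Fin 2) h01
  have h10' : σ 1 0 c ≠ 0 := by
    rw [h10]
    intro e
    exact hc (by rw [← e]; simp)
  have key : ∀ u v : Fin 2, ¬ Conf (⊤ : SimpleGraph (Fin 2)) σ ![0, c] u v := by
    intro u v h
    obtain ⟨h1, h2⟩ := h
    fin_cases u <;> fin_cases v
    · simp at h1
    · exact hc (by simpa using h2)
    · exact h10' (by simpa using h2)
    · simp at h1
  exact ⟨![0, c], fun u v w h => (key u v h).elim, fun v h => key _ v h⟩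

theorem stageB_of_stageA {P : PG} (h : StageA P) : StageB P.stepD := by
  intro σ hσ
  have hin : SymmCov (fun u v : P.V => σ (Sum.inl u) (Sum.inl v)) :=
    symmCov_comp hσ Sum.inl_injective
  have hl : SymmCov (fun i j : Fin 8 => σ (loc P.x P.y i) (loc P.x P.y j)) :=
    symmCov_comp hσ (loc_injective P.ne)
  obtain ⟨φ, hφ, hy⟩ := h _ hin
  refine ⟨φ P.y, fun c hc => ?_⟩
  obtain ⟨ψ, h0, h1, h7, hψ, f0, f7⟩ := localD _ hl (φ P.x) (φ P.y) c hc
  refine ⟨Sum.elim φ fun j : Fin 6 => ψ j.succ.succ, rfl, h7,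
    glue_good P.ne h0 h1 hφ hψ (Or.inr f0) (Or.inl hy), glue_free_new P.ne h0 h1 f7⟩

theorem stageC_of_stageB {P : PG} (h : StageB P) : StageC P.stepD := by
  intro σ hσ
  have hin : SymmCov (fun u v : P.V => σ (Sum.inl u) (Sum.inl v)) :=
    symmCov_comp hσ Sum.inl_injective
  have hl : SymmCov (fun i j : Fin 8 => σ (loc P.x P.y i) (loc P.x P.y j)) :=
    symmCov_comp hσ (loc_injective P.ne)
  obtain ⟨b, hb⟩ := h _ hin
  refine ⟨σ (Sum.inl P.x) (Sum.inl P.y) b, fun c hc d hd => ?_⟩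
  obtain ⟨φ, hx, hy', hφ, hy⟩ := hb c hc.symm
  obtain ⟨ψ, h0, h1, h7, hψ, f0, f7⟩ := localD _ hl b c d hd
  rw [← hx] at h0
  rw [← hy'] at h1
  refine ⟨Sum.elim φ fun j : Fin 6 => ψ j.succ.succ, hy', h7,
    glue_good P.ne h0 h1 hφ hψ (Or.inr f0) (Or.inl hy), glue_free_new P.ne h0 h1 f7⟩

theorem stageD_of_stageC {P : PG} (h : StageC P) : StageD P.stepA := by
  intro σ hσ
  have hin : SymmCov (fun u v : P.V => σ (Sum.inl u) (Sum.inl v)) :=
    symmCov_comp hσ Sum.inl_injective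
  have hl : SymmCov (fun i j : Fin 5 => σ (loc P.x P.y i) (loc P.x P.y j)) :=
    symmCov_comp hσ (loc_injective P.ne)
  obtain ⟨κ, hκ⟩ := h _ hin
  obtain ⟨ψ, n0, n1, hψ, f0, f1, f4⟩ := localA _ hl κ
  obtain ⟨φ, h0, h1, hφ, hy⟩ := hκ _ n0 _ n1
  exact ⟨Sum.elim φ fun j : Fin 3 => ψ j.succ.succ,
    glue_good P.ne h0.symm h1.symm hφ hψ (Or.inr f0) (Or.inr f1),
    glue_free_new P.ne h0.symm h1.symm f4, glue_free_y P.ne h0.symm h1.symm hy f1⟩

theorem stageA_of_stageD {P : PG} (h : StageD P) : StageA P.stepM := by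
  intro σ hσ
  have hin : SymmCov (fun u v : P.V => σ (Sum.inl u) (Sum.inl v)) :=
    symmCov_comp hσ Sum.inl_injective
  have hl : SymmCov (fun i j : Fin 9 => σ (loc P.x P.y i) (loc P.x P.y j)) :=
    symmCov_comp hσ (loc_injective P.ne)
  obtain ⟨φ, hφ, hx, hy⟩ := h _ hin
  obtain ⟨ψ, h0, h1, hψ, f1⟩ := localM _ hl (φ P.x) (φ P.y)
  exact ⟨Sum.elim φ fun j : Fin 7 => ψ j.succ.succ,
    glue_good P.ne h0 h1 hφ hψ (Or.inl hx) (Or.inl hy), glue_free_y P.ne h0 h1 hy f1⟩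

theorem stageA_block {P : PG} (h : StageA P) : StageA P.block :=
  stageA_of_stageD (stageD_of_stageC (stageC_of_stageB (stageB_of_stageA h)))

theorem stageA_chain (n : ℕ) : StageA (PG.chain n) := by
  induction n with
  | zero => exact stageA_base
  | succ n ih => exact stageA_block ih

end Pool.Agent.Lib.MP_b7e22d_co
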