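import Mathlib
import Pool.Agent.Lib.MP_b7e22d_co.Defs
import Pool.Agent.Lib.MP_b7e22d_co.Reduce
import Pool.Agent.Lib.MP_b7e22d_co.Stages
import Pool.Agent.Lib.MP_b7e22d_co.FourWorld
import Pool.Agent.Lib.MP_b7e22d_co.PlanarChain

/-!
The chain of twelve blocks answers the question.
-/

namespace Pool.Agent.Lib.MP_b7e22d_co

theorem chain_defective (n : ℕ) : IsDefectiveCorrespondable (PG.chain n).G 1 3 :=
  defective_of_good _ fun σ hσ => by
    obtain ⟨φ, hφ, _⟩ := stageA_chain n σ hσ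
    exact ⟨φ, hφ⟩

theorem main : ∃ (V : Type) (_ : Fintype V) (G : SimpleGraph V),
    IsPlanar G ∧ IsDefectiveCorrespondable G 1 3 ∧ ¬ IsChoosable G 4 :=
  ⟨(PG.chain 12).V, (PG.chain 12).fin, (PG.chain 12).G, isPlanar_chain 12, chain_defective 12,
    chain_not_choosable⟩

end Pool.Agent.Lib.MP_b7e22d_co
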