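import Mathlib
import Pool.Agent.Lib.MP_b7e22d_co.Defs

/-!
Sanity checks of the definitions: 0-defective correspondability implies choosability, and a larger
defect is weaker.
-/

namespace Pool.Agent.Lib.MP_b7e22d_co

/-- Correspondence colouring generalises list colouring. -/
theorem choosable_of_correspondable {V : Type} {G : SimpleGraph V} {k : ℕ}
    (h : IsDefectiveCorrespondable G 0 k) : IsChoosable G k := by
  classical
  intro C L hL
  let W := {p : V × C // p.2 ∈ L p.1}
  let L' : V → Finset W := fun v => (L v).attach.map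
    ⟨fun c => ⟨(v, c.1), c.2⟩, fun c d hcd => by
      have := congrArg (fun w : W => w.1.2) hcd
      exact Subtype.ext this⟩
  have hmem : ∀ v (w : W), w ∈ L' v ↔ w.1.1 = v := by
    rintro v ⟨⟨u, c⟩, hc⟩
    simp only [L', Finset.mem_map, Finset.mem_attach, true_and, Function.Embedding.coeFn_mk,
      Subtype.exists]
    constructor
    · rintro ⟨a, b, hab⟩
      have := congrArg (fun w : W => w.1.1) hab
      exact this.symm
    · rintro rfl
      exact ⟨c, hc, rfl⟩
  obtain ⟨H, hH⟩ : ∃ H : SimpleGraph W, ∀ w w', H.Adj w w' ↔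
      G.Adj w.1.1 w'.1.1 ∧ w.1.2 = w'.1.2 :=
    ⟨{ Adj := fun w w' => G.Adj w.1.1 w'.1.1 ∧ w.1.2 = w'.1.2
       symm := ⟨fun _ _ h => ⟨h.1.symm, h.2.symm⟩⟩
       loopless := ⟨fun _ h => h.1.ne rfl⟩ }, fun _ _ => Iff.rfl⟩
  have hcov : IsCover G k L' H := by
    refine ⟨fun v => ?_, fun w => ?_, ?_, ?_⟩
    · simp [L', hL]
    · exact ⟨w.1.1, (hmem _ _).2 rfl, fun v hv => ((hmem _ _).1 hv).symm⟩
    · intro u v _ x hx y hy z hz hxy hxz
      have hy' := (hmem _ _).1 hy
      have hz' := (hmem _ _).1 hz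
      exact Subtype.ext (Prod.ext (hy'.trans hz'.symm)
        (((hH _ _).1 hxy).2.symm.trans ((hH _ _).1 hxz).2))
    · intro u v _ huv x hx y hy hxy
      rw [hmem] at hx hy
      apply huv
      rw [← hx, ← hy]
      exact ((hH _ _).1 hxy).1
  obtain ⟨I, hI, hd⟩ := h W L' H hcov
  choose f hf _ using hI
  have hf1 : ∀ v, (f v).1.1 = v := fun v => (hmem _ _).1 (hf v).2
  refine ⟨fun v => (f v).1.2, fun v => ?_, fun u v huv he => ?_⟩
  · have := (f v).2
    rwa [hf1 v] at this
  · have h0 := hd (f u) (hf u).1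
    have hadj : H.Adj (f u) (f v) := (hH _ _).2 ⟨by rw [hf1 u, hf1 v]; exact huv, he⟩
    rw [Nat.le_zero, Finset.card_eq_zero, Finset.filter_eq_empty_iff] at h0
    exact h0 (hf v).1 hadj

/-- A larger defect is weaker. -/
theorem correspondable_mono {V : Type} {G : SimpleGraph V} {d d' k : ℕ} (hd : d ≤ d')
    (h : IsDefectiveCorrespondable G d k) : IsDefectiveCorrespondable G d' k := by
  intro W L H hc
  obtain ⟨I, h1, h2⟩ := h W L H hc
  exact ⟨I, h1, fun x hx => (h2 x hx).trans hd⟩

/-- Choosability is monotone. -/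
theorem choosable_mono {V : Type} {G : SimpleGraph V} {k : ℕ} (h : IsChoosable G k) :
    IsChoosable G (k + 1) := by
  classical
  intro C L hL
  have : ∀ v, ∃ s ⊆ L v, s.card = k := fun v =>
    Finset.exists_subset_card_eq (by rw [hL]; omega)
  choose s hs hsc using this
  obtain ⟨c, hc, hp⟩ := h C s hsc
  exact ⟨c, fun v => hs v (hc v), hp⟩

end Pool.Agent.Lib.MP_b7e22d_co
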